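import Pool.Agent.Q186.PL.EL

/-!
# A smooth maximum of two test functions, and the comparison principle
-/

set_option autoImplicit false

open MeasureTheory Filter Topology Set
open scoped ENNReal NNReal ContDiff

namespace Pool.Agent.Q186.PL

/-- the smoothed maximum -/
noncomputable def smax (ε a b : ℝ) : ℝ := (a + b + (√((a - b) ^ 2 + ε ^ 2) - ε)) / 2

theorem smax_ge {ε : ℝ} (hε : 0 < ε) (a b : ℝ) : a - ε / 2 ≤ smax ε a b ∧ b - ε / 2 ≤ smax ε a b := by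
  have h : |a - b| ≤ √((a - b) ^ 2 + ε ^ 2) := by
    apply Real.le_sqrt_of_sq_le
    rw [sq_abs]; nlinarith [sq_nonneg ε]
  have h1 := le_abs_self (a - b)
  have h2 := neg_abs_le (a - b)
  unfold smax
  constructor <;> linarith

theorem smax_zero {ε : ℝ} (hε : 0 < ε) : smax ε 0 0 = 0 := by
  unfold smax
  have h : √(((0 : ℝ) - 0) ^ 2 + ε ^ 2) = ε := by
    rw [sub_zero, zero_pow two_ne_zero, zero_add, Real.sqrt_sq hε.le]
  rw [h]; ring

section
variable {E : Type*} [NormedAddCommGroup E] [InnerProductSpace ℝ E] [FiniteDimensional ℝ E]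

theorem Test.smax {Ω : Set E} {φ ψ : E → ℝ} (hφ : Test Ω φ) (hψ : Test Ω ψ) {ε : ℝ}
    (hε : 0 < ε) : Test Ω (fun x => smax ε (φ x) (ψ x)) := by
  have hs : Function.support (fun x => PL.smax ε (φ x) (ψ x)) ⊆
      Function.support φ ∪ Function.support ψ := by
    intro x hx
    by_contra hn
    rw [mem_union, not_or, Function.notMem_support, Function.notMem_support] at hn
    apply hx
    simp only
    rw [hn.1, hn.2, smax_zero hε]
  have hts : tsupport (fun x => PL.smax ε (φ x) (ψ x)) ⊆ tsupport φ ∪ tsupport ψ := by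
    unfold tsupport
    rw [← closure_union]
    exact closure_mono hs
  refine ⟨?_, ?_, hts.trans (union_subset hφ.supp hψ.supp)⟩
  · unfold PL.smax
    have h1 := hφ.smooth
    have h2 := hψ.smooth
    have h3 : ContDiff ℝ ∞ fun x => √((φ x - ψ x) ^ 2 + ε ^ 2) := by
      refine ContDiff.sqrt ?_ fun x => ?_
      · exact ((h1.sub h2).pow 2).add contDiff_const
      · positivity
    exact ((h1.add h2).add (h3.sub contDiff_const)).div_const 2
  · exact IsCompact.of_isClosed_subset (IsCompact.union hφ.comp hψ.comp) (isClosed_tsupport _) hts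

/-- the gradient of the smooth maximum is a convex combination -/
theorem grad_smax {Ω : Set E} {φ ψ : E → ℝ} (hφ : Test Ω φ) (hψ : Test Ω ψ) {ε : ℝ}
    (hε : 0 < ε) (x : E) : ∃ c : ℝ, 0 ≤ c ∧ c ≤ 1 ∧
      gradient (fun x => smax ε (φ x) (ψ x)) x = c • gradient φ x + (1 - c) • gradient ψ x := by
  set d : ℝ := φ x - ψ x with hd
  set r : ℝ := √(d ^ 2 + ε ^ 2) with hr
  have hr0 : 0 < r := Real.sqrt_pos.2 (by positivity)
  have hdr : |d / r| ≤ 1 := by
    rw [abs_div, abs_of_pos hr0, div_le_one hr0]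
    apply Real.le_sqrt_of_sq_le
    rw [sq_abs]; nlinarith [sq_nonneg ε]
  have hdr' := abs_le.1 hdr
  refine ⟨(1 + d / r) / 2, by linarith, by linarith, ?_⟩
  have h1 := (hφ.differentiableAt x).hasFDerivAt
  have h2 := (hψ.differentiableAt x).hasFDerivAt
  have h3 : HasFDerivAt (fun x => φ x - ψ x) (fderiv ℝ φ x - fderiv ℝ ψ x) x := h1.sub h2
  have h4 : HasFDerivAt (fun x => (φ x - ψ x) ^ 2 + ε ^ 2)
      ((2 * d) • (fderiv ℝ φ x - fderiv ℝ ψ x)) x := by
    have := (h3.pow 2).add_const (ε ^ 2)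
    simpa [hd] using this
  have h5 := (h4.sqrt (by positivity))
  have h6 : HasFDerivAt (fun x => smax ε (φ x) (ψ x))
      ((((1 + d / r) / 2) : ℝ) • fderiv ℝ φ x + (1 - (1 + d / r) / 2 : ℝ) • fderiv ℝ ψ x) x := by
    have h7 := (((h1.add h2).add (h5.sub_const ε)).const_mul (1 / 2 : ℝ))
    unfold smax
    refine (h7.congr_of_eventuallyEq (Eventually.of_forall fun y => ?_)).congr_fderiv ?_
    · simp only [Pi.add_apply]
      ring
    · ext v
      simp only [ContinuousLinearMap.add_apply, ContinuousLinearMap.smul_apply,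
        ContinuousLinearMap.sub_apply, smul_eq_mul]
      rw [← hd, ← hr]
      field_simp
      ring
  unfold gradient
  rw [h6.fderiv, map_add, map_smul, map_smul]

end

section
variable {E : Type*} [NormedAddCommGroup E] [InnerProductSpace ℝ E]

theorem norm_rpow_convex {p : ℝ} (hp : 1 < p) (a b : E) {c : ℝ} (h0 : 0 ≤ c) (h1 : c ≤ 1) :
    ‖c • a + (1 - c) • b‖ ^ p ≤ c * ‖a‖ ^ p + (1 - c) * ‖b‖ ^ p := by
  have hc := (convexOn_rpow hp.le).2 (norm_nonneg a) (norm_nonneg b) h0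
    (show 0 ≤ 1 - c by linarith) (by ring)
  simp only [smul_eq_mul] at hc
  refine le_trans (Real.rpow_le_rpow (norm_nonneg _) ?_ (by linarith)) hc
  refine (norm_add_le _ _).trans ?_
  rw [norm_smul, norm_smul, Real.norm_eq_abs, Real.norm_eq_abs, abs_of_nonneg h0,
    abs_of_nonneg (by linarith : (0 : ℝ) ≤ 1 - c)]

end

variable {E : Type*} [NormedAddCommGroup E] [InnerProductSpace ℝ E] [FiniteDimensional ℝ E]
  [MeasurableSpace E] [BorelSpace E] {Ω : Set E} {p q : ℝ}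

/-- the energy inequality for the smooth maximum and the complementary minimum -/
theorem energy_smax (hp : 1 < p) {φ ψ : E → ℝ} (hφ : Test Ω φ) (hψ : Test Ω ψ)
    {ε : ℝ} (hε : 0 < ε) :
    (∫ x in Ω, ‖gradient (fun x => smax ε (φ x) (ψ x)) x‖ ^ p) +
      (∫ x in Ω, ‖gradient (fun x => (φ x + ψ x) + (-1) * smax ε (φ x) (ψ x)) x‖ ^ p) ≤
      (∫ x in Ω, ‖gradient φ x‖ ^ p) + ∫ x in Ω, ‖gradient ψ x‖ ^ p := by
  have hm := hφ.smax hψ hε
  have hn := (hφ.add hψ).add (hm.smul (-1))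
  have I1 := integrable_norm_rpow hp (hm.memLp_grad (ENNReal.ofReal p))
  have I2 := integrable_norm_rpow hp (hn.memLp_grad (ENNReal.ofReal p))
  have I3 := integrable_norm_rpow hp (hφ.memLp_grad (ENNReal.ofReal p))
  have I4 := integrable_norm_rpow hp (hψ.memLp_grad (ENNReal.ofReal p))
  rw [← integral_add I1 I2, ← integral_add I3 I4]
  refine integral_mono (I1.add I2) (I3.add I4) fun x => ?_
  simp only
  obtain ⟨c, h0, h1, hg⟩ := grad_smax hφ hψ hε x
  have hg2 : gradient (fun x => (φ x + ψ x) + (-1) * smax ε (φ x) (ψ x)) x =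
      (1 - c) • gradient φ x + (1 - (1 - c)) • gradient ψ x := by
    rw [gradient_add' ((hφ.add hψ).differentiableAt x) ((hm.smul (-1)).differentiableAt x),
      gradient_add' (hφ.differentiableAt x) (hψ.differentiableAt x),
      gradient_smul' _ (hm.differentiableAt x), hg]
    module
  rw [hg, hg2]
  have e1 := norm_rpow_convex hp (gradient φ x) (gradient ψ x) h0 h1
  have e2 := norm_rpow_convex hp (gradient φ x) (gradient ψ x) (c := 1 - c) (by linarith)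
    (by linarith)
  linarith

variable [Fact (1 ≤ ENNReal.ofReal p)]

theorem J_pr (hp : 1 < p) {F : E → ℝ}
    (ℓ : Lp ℝ (ENNReal.ofReal p) (mu Ω) →L[ℝ] ℝ)
    (hℓ : ∀ f, ℓ f = ∫ x in Ω, (inner ℝ (F x) (f x) : ℝ)) {φ : E → ℝ} (hφ : Test Ω φ) :
    J p ℓ (pr p hφ) = (∫ x in Ω, ‖gradient φ x‖ ^ p) / p - ∫ x in Ω, F x * φ x := by
  unfold J
  rw [norm_Lp_rpow hp, hℓ]
  congr 1
  · congr 1
    refine integral_congr_ae ?_
    filter_upwards [(hφ.memLp_grad (ENNReal.ofReal p)).coeFn_toLp] with x hx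
    have hx' : (pr p hφ).2 x = gradient φ x := hx
    rw [hx']
  · refine integral_congr_ae ?_
    filter_upwards [(hφ.memLp (ENNReal.ofReal p)).coeFn_toLp] with x hx
    have hx' : (pr p hφ).1 x = φ x := hx
    rw [hx']; simp [mul_comm]

theorem integrable_mul_test (hq : p.HolderConjugate q) {F : E → ℝ}
    (hF : MemLp F (ENNReal.ofReal q) (mu Ω)) {φ : E → ℝ} (hφ : Test Ω φ) :
    Integrable (fun x => F x * φ x) (mu Ω) := by
  have h := (exists_func hq hF).1 φ (hφ.memLp _)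
  refine h.congr (Eventually.of_forall fun x => ?_)
  simp [mul_comm]

/-- the comparison of the two functionals -/
theorem J_smax (hq : p.HolderConjugate q) [IsFiniteMeasure (mu Ω)] {F F' : E → ℝ}
    (hF : MemLp F (ENNReal.ofReal q) (mu Ω)) (hF' : MemLp F' (ENNReal.ofReal q) (mu Ω))
    (hle : ∀ᵐ x ∂(mu Ω), F' x ≤ F x)
    (ℓ ℓ' : Lp ℝ (ENNReal.ofReal p) (mu Ω) →L[ℝ] ℝ)
    (hℓ : ∀ f, ℓ f = ∫ x in Ω, (inner ℝ (F x) (f x) : ℝ))
    (hℓ' : ∀ f, ℓ' f = ∫ x in Ω, (inner ℝ (F' x) (f x) : ℝ)) {φ ψ : E → ℝ} (hφ : Test Ω φ)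
    (hψ : Test Ω ψ) {ε : ℝ} (hε : 0 < ε) {I' : ℝ} (hI' : ∀ s ∈ TS p Ω, I' ≤ J p ℓ' s) :
    J p ℓ (pr p (hφ.smax hψ hε)) ≤
      J p ℓ (pr p hφ) + (J p ℓ' (pr p hψ) - I') + ε / 2 * ∫ x in Ω, (F x - F' x) := by
  have hp : 1 < p := hq.lt
  have h0 : 0 < p := by linarith
  have hm := hφ.smax hψ hε
  have hn := (hφ.add hψ).add (hm.smul (-1))
  have h1 := hI' _ ⟨_, hn, rfl⟩
  rw [J_pr hp ℓ' hℓ' hn] at h1
  rw [J_pr hp ℓ hℓ hm, J_pr hp ℓ hℓ hφ, J_pr hp ℓ' hℓ' hψ]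
  have h2 := energy_smax hp hφ hψ hε
  have h3 : (∫ x in Ω, ‖gradient (fun x => smax ε (φ x) (ψ x)) x‖ ^ p) / p +
      (∫ x in Ω, ‖gradient (fun x => (φ x + ψ x) + (-1) * smax ε (φ x) (ψ x)) x‖ ^ p) / p ≤
      (∫ x in Ω, ‖gradient φ x‖ ^ p) / p + (∫ x in Ω, ‖gradient ψ x‖ ^ p) / p := by
    rw [← add_div, ← add_div]
    exact div_le_div_of_nonneg_right h2 h0.le
  have i1 := integrable_mul_test hq hF hm
  have i2 := integrable_mul_test hq hF' hn
  have i3 := integrable_mul_test hq hF hφ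
  have i4 := integrable_mul_test hq hF' hψ
  have i5 : Integrable F (mu Ω) := hF.integrable (by simpa using hq.symm.lt.le)
  have i6 : Integrable F' (mu Ω) := hF'.integrable (by simpa using hq.symm.lt.le)
  have h4 : (∫ x in Ω, F x * φ x) + (∫ x in Ω, F' x * ψ x) - ε / 2 * (∫ x in Ω, (F x - F' x)) ≤
      (∫ x in Ω, F x * smax ε (φ x) (ψ x)) +
        ∫ x in Ω, F' x * ((φ x + ψ x) + (-1) * smax ε (φ x) (ψ x)) := by
    have i7 : Integrable (fun x => F x * φ x + F' x * ψ x) (mu Ω) := i3.add i4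
    have i8 : Integrable (fun x => ε / 2 * (F x - F' x)) (mu Ω) := (i5.sub i6).const_mul _
    have e1 : (∫ x in Ω, F x * φ x) + (∫ x in Ω, F' x * ψ x) - ε / 2 * (∫ x in Ω, (F x - F' x))
        = ∫ x in Ω, (F x * φ x + F' x * ψ x - ε / 2 * (F x - F' x)) := by
      rw [integral_sub i7 i8, integral_add i3 i4, integral_const_mul]
    rw [e1, ← integral_add i1 i2]
    refine integral_mono_ae (i7.sub i8) (i1.add i2) ?_
    filter_upwards [hle] with x hx
    have h5 := (smax_ge hε (φ x) (ψ x)).1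
    have h6 : 0 ≤ (F x - F' x) * (smax ε (φ x) (ψ x) - (φ x - ε / 2)) :=
      mul_nonneg (by linarith) (by linarith)
    nlinarith
  linarith

/-- **comparison principle** -/
theorem comparison (hq : p.HolderConjugate q) [IsFiniteMeasure (mu Ω)] {F F' : E → ℝ}
    (hF : MemLp F (ENNReal.ofReal q) (mu Ω)) (hF' : MemLp F' (ENNReal.ofReal q) (mu Ω))
    (hle : ∀ᵐ x ∂(mu Ω), F' x ≤ F x)
    (ℓ ℓ' : Lp ℝ (ENNReal.ofReal p) (mu Ω) →L[ℝ] ℝ)
    (hℓ : ∀ f, ℓ f = ∫ x in Ω, (inner ℝ (F x) (f x) : ℝ))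
    (hℓ' : ∀ f, ℓ' f = ∫ x in Ω, (inner ℝ (F' x) (f x) : ℝ)) {I I' : ℝ}
    (hI : IsInf p ℓ (TS p Ω) I) (hI' : IsInf p ℓ' (TS p Ω) I')
    {w w' : Lp ℝ (ENNReal.ofReal p) (mu Ω) × Lp E (ENNReal.ofReal p) (mu Ω)}
    (hw : w ∈ closure (TS p Ω : Set (Lp ℝ (ENNReal.ofReal p) (mu Ω) ×
      Lp E (ENNReal.ofReal p) (mu Ω)))) (hJ : J p ℓ w = I)
    (hall : ∀ s : ℕ → Lp ℝ (ENNReal.ofReal p) (mu Ω) × Lp E (ENNReal.ofReal p) (mu Ω),
      (∀ n, s n ∈ TS p Ω) → Tendsto (fun n => J p ℓ (s n)) atTop (𝓝 I) → Tendsto s atTop (𝓝 w))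
    (hw' : w' ∈ closure (TS p Ω : Set (Lp ℝ (ENNReal.ofReal p) (mu Ω) ×
      Lp E (ENNReal.ofReal p) (mu Ω)))) (hJ' : J p ℓ' w' = I') :
    w'.1 ≤ w.1 := by
  have hp : 1 < p := hq.lt
  obtain ⟨s, hs, hsl⟩ := mem_closure_iff_seq_limit.1 hw
  obtain ⟨t, ht, htl⟩ := mem_closure_iff_seq_limit.1 hw'
  choose φ hφ hφe using hs
  choose ψ hψ hψe using ht
  have hε : ∀ n : ℕ, 0 < 1 / ((n : ℝ) + 1) := fun n => by positivity
  have hε0 := tendsto_one_div_add_atTop_nhds_zero_nat (𝕜 := ℝ)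
  have hJs : Tendsto (fun n => J p ℓ (s n)) atTop (𝓝 I) := by
    rw [← hJ]; exact ((continuous_J hp ℓ).tendsto w).comp hsl
  have hJt : Tendsto (fun n => J p ℓ' (t n)) atTop (𝓝 I') := by
    rw [← hJ']; exact ((continuous_J hp ℓ').tendsto w').comp htl
  have hJm : Tendsto (fun n => J p ℓ (pr p ((hφ n).smax (hψ n) (hε n)))) atTop (𝓝 I) := by
    refine tendsto_of_tendsto_of_tendsto_of_le_of_le tendsto_const_nhds
      (h := fun n : ℕ => J p ℓ (s n) + (J p ℓ' (t n) - I') +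
        1 / ((n : ℝ) + 1) / 2 * ∫ x in Ω, (F x - F' x)) ?_
      (fun n => hI.le _ ⟨_, (hφ n).smax (hψ n) (hε n), rfl⟩) fun n => ?_
    · have h1 := (hJs.add (hJt.sub_const I')).add ((hε0.div_const 2).mul_const
        (∫ x in Ω, (F x - F' x)))
      simpa using h1
    · have := J_smax hq hF hF' hle ℓ ℓ' hℓ hℓ' (hφ n) (hψ n) (hε n) hI'.le
      rw [← hφe n, ← hψe n] at this
      exact this
  have hm := hall _ (fun n => ⟨_, (hφ n).smax (hψ n) (hε n), rfl⟩) hJm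
  have hm1 : Tendsto (fun n => (pr p ((hφ n).smax (hψ n) (hε n))).1) atTop (𝓝 w.1) :=
    (continuous_fst.tendsto w).comp hm
  have ht1 : Tendsto (fun n => (t n).1) atTop (𝓝 w'.1) := (continuous_fst.tendsto w').comp htl
  set one : Lp ℝ (ENNReal.ofReal p) (mu Ω) := (memLp_const (1 : ℝ)).toLp _ with hone
  have hc : Tendsto (fun n : ℕ => (pr p ((hφ n).smax (hψ n) (hε n))).1 +
      (1 / ((n : ℝ) + 1) / 2) • one) atTop (𝓝 w.1) := by
    have := hm1.add ((hε0.div_const 2).smul_const one)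
    simpa using this
  refine le_of_tendsto_of_tendsto' ht1 hc fun n => ?_
  rw [hψe n, ← Lp.coeFn_le]
  filter_upwards [((hψ n).memLp (ENNReal.ofReal p)).coeFn_toLp,
    (((hφ n).smax (hψ n) (hε n)).memLp (ENNReal.ofReal p)).coeFn_toLp,
    Lp.coeFn_add (pr p ((hφ n).smax (hψ n) (hε n))).1 ((1 / ((n : ℝ) + 1) / 2) • one),
    Lp.coeFn_smul (1 / ((n : ℝ) + 1) / 2) one,
    (memLp_const (μ := mu Ω) (p := ENNReal.ofReal p) (1 : ℝ)).coeFn_toLp] with x h1 h2 h3 h4 h5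
  have h1' : (pr p (hψ n)).1 x = ψ n x := h1
  have h2' : (pr p ((hφ n).smax (hψ n) (hε n))).1 x = smax (1 / ((n : ℝ) + 1)) (φ n x) (ψ n x) :=
    h2
  have h5' : one x = 1 := h5
  rw [h1', h3, Pi.add_apply, h2', h4, Pi.smul_apply, h5', smul_eq_mul, mul_one]
  have := (smax_ge (hε n) (φ n x) (ψ n x)).2
  linarith

end Pool.Agent.Q186.PL
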