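import Mathlib

/-!
# The Dirichlet problem for the p-Laplacian and singular sets: definitions

`E` is a finite dimensional real inner product space (in the result: `ℝ^N`).
-/

set_option autoImplicit false

open MeasureTheory Filter Topology Set
open scoped ENNReal NNReal ContDiff

namespace Pool.Agent.Q186.PL

variable {E : Type*} [NormedAddCommGroup E] [InnerProductSpace ℝ E] [FiniteDimensional ℝ E]
  [MeasurableSpace E] [BorelSpace E]

/-- `φ ∈ C_c^∞(Ω)` -/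
structure Test {E : Type*} [NormedAddCommGroup E] [InnerProductSpace ℝ E] (Ω : Set E)
    (φ : E → ℝ) : Prop where
  smooth : ContDiff ℝ ∞ φ
  comp : HasCompactSupport φ
  supp : tsupport φ ⊆ Ω

/-- `u ∈ W_0^{1,p}(Ω)` with weak gradient `G`: there are `φ n ∈ C_c^∞(Ω)` with `φ n → u` and
`∇ (φ n) → G` in `L^p(Ω)`. -/
def InW0 (p : ℝ) (Ω : Set E) (u : E → ℝ) (G : E → E) : Prop :=
  MemLp u (ENNReal.ofReal p) (volume.restrict Ω) ∧
  MemLp G (ENNReal.ofReal p) (volume.restrict Ω) ∧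
  ∃ φ : ℕ → E → ℝ, (∀ n, Test Ω (φ n)) ∧
    Tendsto (fun n => eLpNorm (fun x => φ n x - u x) (ENNReal.ofReal p) (volume.restrict Ω))
      atTop (𝓝 0) ∧
    Tendsto (fun n => eLpNorm (fun x => gradient (φ n) x - G x) (ENNReal.ofReal p)
      (volume.restrict Ω)) atTop (𝓝 0)

/-- `u ∈ W_0^{1,p}(Ω)` and `- Δ_p u = F` in the sense of distributions in `Ω`. -/
def Sol (p : ℝ) (Ω : Set E) (F u : E → ℝ) : Prop :=
  ∃ G : E → E, InW0 p Ω u G ∧ ∀ φ : E → ℝ, Test Ω φ →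
    ∫ x in Ω, inner ℝ (‖G x‖ ^ (p - 2) • G x) (gradient φ x) = ∫ x in Ω, F x * φ x

/-- The set `X(Ω, p)` of the weak solutions `u ∈ W_0^{1,p}(Ω)` of `- Δ_p u = F` for some
`F ∈ L^{p'}(Ω)`, `p' = p / (p - 1)`. -/
def XSet (p : ℝ) (Ω : Set E) : Set (E → ℝ) :=
  {u | ∃ F : E → ℝ, MemLp F (ENNReal.ofReal (p / (p - 1))) (volume.restrict Ω) ∧ Sol p Ω F u}

/-- The singular set of `u`. -/
def Sing (Ω : Set E) (u : E → ℝ) : Set E :=
  {a | a ∈ Ω ∧ ∃ C : ℝ, 0 < C ∧ ∃ γ : ℝ, 0 < γ ∧ ∃ r : ℝ, 0 < r ∧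
    ∀ᵐ x ∂(volume.restrict Ω), x ∈ Metric.ball a r → C * ‖x - a‖ ^ (-γ) ≤ u x}

/-- `v` is maximally singular in `Y`: `v ∈ Y`, and the Hausdorff dimension of its singular set is the
supremum (`s-dim Y`) over all functions of `Y`. -/
def MaxSing (Ω : Set E) (Y : Set (E → ℝ)) (v : E → ℝ) : Prop :=
  v ∈ Y ∧ dimH (Sing Ω v) = ⨆ u ∈ Y, dimH (Sing Ω u)

end Pool.Agent.Q186.PL
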