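import Pool.Agent.Q186.PL.Pairs

/-!
# The Euler-Lagrange equation, and weak solutions are minimisers
-/

set_option autoImplicit false

open MeasureTheory Filter Topology Set
open scoped ENNReal NNReal ContDiff

namespace Pool.Agent.Q186.PL

section point
variable {E : Type*} [NormedAddCommGroup E] [InnerProductSpace ℝ E]

/-- `a ↦ |a|^{p-2} a` -/
noncomputable def Af (p : ℝ) (a : E) : E := ‖a‖ ^ (p - 2) • a

theorem norm_Af {p : ℝ} (hp : 1 < p) (a : E) : ‖Af p a‖ = ‖a‖ ^ (p - 1) := by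
  unfold Af
  by_cases ha : a = 0
  · subst ha
    rw [smul_zero, norm_zero, Real.zero_rpow (by linarith)]
  · have h : 0 < ‖a‖ := norm_pos_iff.2 ha
    rw [norm_smul, Real.norm_eq_abs, abs_of_nonneg (by positivity)]
    nth_rw 2 [← Real.rpow_one ‖a‖]
    rw [← Real.rpow_add h]
    congr 1; ring

theorem inner_Af {p : ℝ} (hp : 1 < p) (a : E) : (inner ℝ (Af p a) a : ℝ) = ‖a‖ ^ p := by
  unfold Af
  by_cases ha : a = 0
  · subst ha
    rw [inner_zero_right, norm_zero, Real.zero_rpow (by linarith)]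
  · have h : 0 < ‖a‖ := norm_pos_iff.2 ha
    rw [real_inner_smul_left, real_inner_self_eq_norm_sq, ← Real.rpow_natCast, ← Real.rpow_add h]
    congr 1; push_cast; ring

theorem continuous_Af {p : ℝ} (hp : 1 < p) : Continuous (Af p : E → E) := by
  rw [continuous_iff_continuousAt]
  intro a
  by_cases ha : a = 0
  · subst ha
    have h0 : Af p (0 : E) = 0 := by simp [Af]
    rw [ContinuousAt, h0, tendsto_zero_iff_norm_tendsto_zero]
    have h1 : Tendsto (fun x : E => ‖x‖ ^ (p - 1)) (𝓝 0) (𝓝 0) := by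
      have hc : Continuous fun x : E => ‖x‖ ^ (p - 1) :=
        continuous_norm.rpow_const fun _ => Or.inr (by linarith)
      have := hc.tendsto 0
      simpa [Real.zero_rpow (by linarith : p - 1 ≠ 0)] using this
    exact h1.congr fun x => (norm_Af hp x).symm
  · unfold Af
    exact (continuous_norm.continuousAt.rpow_const (Or.inl (norm_ne_zero_iff.2 ha))).smul
      continuousAt_id

/-- convexity of `|a|^p / p` -/
theorem convex_ineq {p : ℝ} (hp : 1 < p) (a b : E) :
    ‖a‖ ^ p / p + (inner ℝ (Af p a) (b - a) : ℝ) ≤ ‖b‖ ^ p / p := by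
  have h0 : 0 < p := by linarith
  obtain ⟨q, hq⟩ : ∃ q, p.HolderConjugate q := ⟨_, Real.HolderConjugate.conjExponent hp⟩
  rw [inner_sub_right, inner_Af hp]
  have h1 : (inner ℝ (Af p a) b : ℝ) ≤ ‖a‖ ^ (p - 1) * ‖b‖ := by
    rw [← norm_Af hp a]; exact real_inner_le_norm _ _
  have h2 := Real.young_inequality_of_nonneg (a := ‖b‖) (b := ‖a‖ ^ (p - 1)) (norm_nonneg _)
    (by positivity) hq
  rw [← Real.rpow_mul (norm_nonneg _)] at h2
  have hq1 : (p - 1) * q = p := hq.sub_one_mul_conj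
  rw [hq1] at h2
  have h3 : ‖a‖ ^ p / q = ‖a‖ ^ p - ‖a‖ ^ p / p := by
    have : (1 : ℝ) / q = 1 - 1 / p := by
      have := hq.one_sub_inv
      rw [one_div, one_div]; exact this.symm
    rw [div_eq_mul_one_div, this]; ring
  rw [h3] at h2
  linarith

end point

variable {E : Type*} [NormedAddCommGroup E] [InnerProductSpace ℝ E] [FiniteDimensional ℝ E]
  [MeasurableSpace E] [BorelSpace E]

theorem memLp_Af {Ω : Set E} {p q : ℝ} (hq : p.HolderConjugate q) {G : E → E}
    (hG : MemLp G (ENNReal.ofReal p) (mu Ω)) :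
    MemLp (fun x => Af p (G x)) (ENNReal.ofReal q) (mu Ω) := by
  have hp : 1 < p := hq.lt
  have hq0 : 0 < q := hq.symm.pos
  have hmeas : AEStronglyMeasurable (fun x => Af p (G x)) (mu Ω) :=
    (continuous_Af hp).comp_aestronglyMeasurable hG.1
  rw [← integrable_norm_rpow_iff hmeas (by simpa using hq0) ENNReal.ofReal_ne_top,
    ENNReal.toReal_ofReal hq0.le]
  refine (integrable_norm_rpow hp hG).congr (Eventually.of_forall fun x => ?_)
  simp only
  rw [norm_Af hp, ← Real.rpow_mul (norm_nonneg _), hq.sub_one_mul_conj]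

section EL
variable {Ω : Set E} {p q : ℝ} [Fact (1 ≤ ENNReal.ofReal p)]

/-- integrated convexity -/
theorem convex_int (hq : p.HolderConjugate q) (G H : Lp E (ENNReal.ofReal p) (mu Ω)) :
    ‖G‖ ^ p / p + ∫ x in Ω, (inner ℝ (Af p (G x)) ((H - G : Lp E (ENNReal.ofReal p) (mu Ω)) x) : ℝ)
      ≤ ‖H‖ ^ p / p := by
  have hp : 1 < p := hq.lt
  rw [norm_Lp_rpow hp, norm_Lp_rpow hp]
  have I1 := (integrable_norm_rpow hp (Lp.memLp G)).div_const p
  have I2 := (integrable_norm_rpow hp (Lp.memLp H)).div_const p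
  have I3 := (exists_func hq (memLp_Af hq (Lp.memLp G))).1 _ (Lp.memLp (H - G))
  rw [← integral_div, ← integral_div, ← integral_add I1 I3]
  refine integral_mono_ae (I1.add I3) I2 ?_
  filter_upwards [Lp.coeFn_sub H G] with x hx
  rw [hx]
  exact convex_ineq hp _ _

/-- the Euler-Lagrange equation of a minimiser in the closure -/
theorem euler_lagrange (hq : p.HolderConjugate q) {F : E → ℝ}
    (hF : MemLp F (ENNReal.ofReal q) (mu Ω)) (ℓ : Lp ℝ (ENNReal.ofReal p) (mu Ω) →L[ℝ] ℝ)
    (hℓ : ∀ f, ℓ f = ∫ x in Ω, (inner ℝ (F x) (f x) : ℝ)) {I : ℝ}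
    (hI : ∀ s ∈ TS p Ω, I ≤ J p ℓ s)
    {w : Lp ℝ (ENNReal.ofReal p) (mu Ω) × Lp E (ENNReal.ofReal p) (mu Ω)}
    (hw : w ∈ closure (TS p Ω : Set (Lp ℝ (ENNReal.ofReal p) (mu Ω) ×
      Lp E (ENNReal.ofReal p) (mu Ω)))) (hJ : J p ℓ w = I) {φ : E → ℝ} (hφ : Test Ω φ) :
    ∫ x in Ω, (inner ℝ (Af p (w.2 x)) (gradient φ x) : ℝ) = ∫ x in Ω, F x * φ x := by
  have hp : 1 < p := hq.lt
  have h0 : 0 < p := by linarith
  have key : ∀ ψ : E → ℝ, ∀ hψ : Test Ω ψ, ∫ x in Ω, F x * ψ x ≤
      ∫ x in Ω, (inner ℝ (Af p (w.2 x)) (gradient ψ x) : ℝ) := by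
    intro ψ hψ
    have hge : ∀ z ∈ closure (TS p Ω : Set (Lp ℝ (ENNReal.ofReal p) (mu Ω) ×
        Lp E (ENNReal.ofReal p) (mu Ω))), I ≤ J p ℓ z := by
      intro z hz
      have hcl : IsClosed {z : Lp ℝ (ENNReal.ofReal p) (mu Ω) ×
          Lp E (ENNReal.ofReal p) (mu Ω) | I ≤ J p ℓ z} :=
        isClosed_le continuous_const (continuous_J hp ℓ)
      exact closure_minimal (fun s hs => hI s hs) hcl hz
    have hℓψ : ℓ (pr p hψ).1 = ∫ x in Ω, F x * ψ x := by
      rw [hℓ]
      refine integral_congr_ae ?_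
      filter_upwards [(hψ.memLp (ENNReal.ofReal p)).coeFn_toLp] with x hx
      unfold pr
      simp only [hx]
      simp [mul_comm]
    have hstep : ∀ t : ℝ, 0 < t → ∫ x in Ω, F x * ψ x ≤
        ∫ x in Ω, (inner ℝ (Af p (w.2 x + t • gradient ψ x)) (gradient ψ x) : ℝ) := by
      intro t ht
      have hmem : w + t • pr p hψ ∈ closure (TS p Ω : Set (Lp ℝ (ENNReal.ofReal p) (mu Ω) ×
          Lp E (ENNReal.ofReal p) (mu Ω))) := by
        have h1 : w ∈ (TS p Ω).topologicalClosure := hw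
        have h2 : pr p hψ ∈ (TS p Ω).topologicalClosure :=
          (TS p Ω).le_topologicalClosure ⟨ψ, hψ, rfl⟩
        exact (TS p Ω).topologicalClosure.add_mem h1
          ((TS p Ω).topologicalClosure.smul_mem t h2)
      have h3 := hge _ hmem
      rw [← hJ] at h3
      unfold J at h3
      simp only [Prod.snd_add, Prod.smul_snd, Prod.fst_add, Prod.smul_fst, map_add, map_smul,
        smul_eq_mul] at h3
      rw [hℓψ] at h3
      have h4 := convex_int hq (w.2 + t • (pr p hψ).2) w.2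
      have h5 : ∫ x in Ω, (inner ℝ (Af p ((w.2 + t • (pr p hψ).2 :
            Lp E (ENNReal.ofReal p) (mu Ω)) x)) ((w.2 - (w.2 + t • (pr p hψ).2) :
            Lp E (ENNReal.ofReal p) (mu Ω)) x) : ℝ)
          = -(t * ∫ x in Ω, (inner ℝ (Af p (w.2 x + t • gradient ψ x)) (gradient ψ x) : ℝ)) := by
        rw [← integral_const_mul, ← integral_neg]
        refine integral_congr_ae ?_
        filter_upwards [Lp.coeFn_sub w.2 (w.2 + t • (pr p hψ).2),
          Lp.coeFn_add w.2 (t • (pr p hψ).2), Lp.coeFn_smul t (pr p hψ).2,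
          (hψ.memLp_grad (ENNReal.ofReal p)).coeFn_toLp] with x h1 h2 h3 h4
        have h4' : (pr p hψ).2 x = gradient ψ x := h4
        rw [h1, Pi.sub_apply, h2, Pi.add_apply, h3, Pi.smul_apply, h4', sub_add_cancel_left,
          inner_neg_right, inner_smul_right]
      rw [h5] at h4
      have h6 : t * ∫ x in Ω, F x * ψ x ≤
          t * ∫ x in Ω, (inner ℝ (Af p (w.2 x + t • gradient ψ x)) (gradient ψ x) : ℝ) := by
        linarith
      exact le_of_mul_le_mul_left h6 ht
    -- pass to the limit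
    have hlim : Tendsto (fun n : ℕ => ∫ x in Ω, (inner ℝ (Af p (w.2 x +
        (1 / ((n : ℝ) + 1)) • gradient ψ x)) (gradient ψ x) : ℝ)) atTop
        (𝓝 (∫ x in Ω, (inner ℝ (Af p (w.2 x)) (gradient ψ x) : ℝ))) := by
      refine tendsto_integral_of_dominated_convergence
        (fun x => (‖w.2 x‖ + ‖gradient ψ x‖) ^ p) ?_ ?_ ?_ ?_
      · intro n
        have h1 : AEStronglyMeasurable (fun x => w.2 x + (1 / ((n : ℝ) + 1)) • gradient ψ x)
            (mu Ω) :=
          (Lp.aestronglyMeasurable w.2).add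
            ((hψ.continuous_grad.aestronglyMeasurable).const_smul _)
        exact ((continuous_Af hp).comp_aestronglyMeasurable h1).inner
          hψ.continuous_grad.aestronglyMeasurable
      · have h1 : MemLp (fun x => ‖w.2 x‖ + ‖gradient ψ x‖) (ENNReal.ofReal p) (mu Ω) :=
          (Lp.memLp w.2).norm.add (hψ.memLp_grad _).norm
        have h2 := integrable_norm_rpow hp h1
        refine h2.congr (Eventually.of_forall fun x => ?_)
        simp only
        rw [Real.norm_eq_abs, abs_of_nonneg (by positivity)]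
      · intro n
        refine Eventually.of_forall fun x => ?_
        set S : ℝ := ‖w.2 x‖ + ‖gradient ψ x‖ with hS
        have hS0 : 0 ≤ S := by positivity
        have h1 : ‖w.2 x + (1 / ((n : ℝ) + 1)) • gradient ψ x‖ ≤ S := by
          refine (norm_add_le _ _).trans ?_
          rw [norm_smul, Real.norm_eq_abs, abs_of_nonneg (by positivity)]
          have : 1 / ((n : ℝ) + 1) ≤ 1 := by
            rw [div_le_one (by positivity)]
            have : (0 : ℝ) ≤ n := Nat.cast_nonneg n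
            linarith
          have := mul_le_mul_of_nonneg_right this (norm_nonneg (gradient ψ x))
          linarith
        calc ‖(inner ℝ (Af p (w.2 x + (1 / ((n : ℝ) + 1)) • gradient ψ x)) (gradient ψ x) : ℝ)‖
            ≤ ‖Af p (w.2 x + (1 / ((n : ℝ) + 1)) • gradient ψ x)‖ * ‖gradient ψ x‖ :=
              norm_inner_le_norm _ _
          _ ≤ S ^ (p - 1) * S := by
              rw [norm_Af hp]
              exact mul_le_mul (Real.rpow_le_rpow (norm_nonneg _) h1 (by linarith))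
                (by have := norm_nonneg (w.2 x); linarith) (norm_nonneg _) (by positivity)
          _ = S ^ p := by
              rcases hS0.eq_or_lt with h | h
              · rw [← h, mul_zero, Real.zero_rpow h0.ne']
              · nth_rw 2 [← Real.rpow_one S]
                rw [← Real.rpow_add h]; congr 1; ring
      · refine Eventually.of_forall fun x => ?_
        have h1 : Tendsto (fun n : ℕ => w.2 x + (1 / ((n : ℝ) + 1)) • gradient ψ x) atTop
            (𝓝 (w.2 x)) := by
          have := (tendsto_one_div_add_atTop_nhds_zero_nat (𝕜 := ℝ)).smul_const (gradient ψ x)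
          rw [zero_smul] at this
          simpa using this.const_add (w.2 x)
        exact (((continuous_Af hp).tendsto _).comp h1).inner tendsto_const_nhds
    exact ge_of_tendsto' hlim fun n => hstep _ (by positivity)
  refine le_antisymm ?_ (key φ hφ)
  have h := key _ (hφ.smul (-1))
  have e1 : ∫ x in Ω, F x * (-1 * φ x) = -∫ x in Ω, F x * φ x := by
    rw [← integral_neg]; exact integral_congr_ae (Eventually.of_forall fun x => by ring)
  have e2 : ∫ x in Ω, (inner ℝ (Af p (w.2 x)) (gradient (fun x => -1 * φ x) x) : ℝ)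
      = -∫ x in Ω, (inner ℝ (Af p (w.2 x)) (gradient φ x) : ℝ) := by
    rw [← integral_neg]
    refine integral_congr_ae (Eventually.of_forall fun x => ?_)
    simp only
    rw [gradient_smul' _ (hφ.differentiableAt x), neg_one_smul, inner_neg_right]
  rw [e1, e2] at h
  linarith

/-- a weak solution minimises the functional -/
theorem weak_min (hq : p.HolderConjugate q) {F : E → ℝ}
    (ℓ : Lp ℝ (ENNReal.ofReal p) (mu Ω) →L[ℝ] ℝ)
    (hℓ : ∀ f, ℓ f = ∫ x in Ω, (inner ℝ (F x) (f x) : ℝ))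
    {w : Lp ℝ (ENNReal.ofReal p) (mu Ω) × Lp E (ENNReal.ofReal p) (mu Ω)}
    (hw : w ∈ closure (TS p Ω : Set (Lp ℝ (ENNReal.ofReal p) (mu Ω) ×
      Lp E (ENNReal.ofReal p) (mu Ω))))
    (hsol : ∀ φ : E → ℝ, Test Ω φ →
      ∫ x in Ω, (inner ℝ (Af p (w.2 x)) (gradient φ x) : ℝ) = ∫ x in Ω, F x * φ x)
    {I : ℝ} (hI : IsInf p ℓ (TS p Ω) I) : J p ℓ w = I := by
  have hp : 1 < p := hq.lt
  obtain ⟨Φ, hΦ⟩ := (exists_func hq (memLp_Af hq (Lp.memLp w.2))).2
  have hcl : ∀ z ∈ closure (TS p Ω : Set (Lp ℝ (ENNReal.ofReal p) (mu Ω) ×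
      Lp E (ENNReal.ofReal p) (mu Ω))), Φ z.2 = ℓ z.1 := by
    intro z hz
    have hc : IsClosed {z : Lp ℝ (ENNReal.ofReal p) (mu Ω) × Lp E (ENNReal.ofReal p) (mu Ω) |
        Φ z.2 = ℓ z.1} :=
      isClosed_eq (Φ.continuous.comp continuous_snd) (ℓ.continuous.comp continuous_fst)
    refine closure_minimal ?_ hc hz
    rintro s ⟨φ, hφ, rfl⟩
    show Φ (pr p hφ).2 = ℓ (pr p hφ).1
    rw [hΦ, hℓ]
    have e1 : ∫ x in Ω, (inner ℝ (Af p (w.2 x)) ((pr p hφ).2 x) : ℝ) =
        ∫ x in Ω, (inner ℝ (Af p (w.2 x)) (gradient φ x) : ℝ) := by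
      refine integral_congr_ae ?_
      filter_upwards [(hφ.memLp_grad (ENNReal.ofReal p)).coeFn_toLp] with x hx
      have hx' : (pr p hφ).2 x = gradient φ x := hx
      rw [hx']
    have e2 : ∫ x in Ω, (inner ℝ (F x) ((pr p hφ).1 x) : ℝ) = ∫ x in Ω, F x * φ x := by
      refine integral_congr_ae ?_
      filter_upwards [(hφ.memLp (ENNReal.ofReal p)).coeFn_toLp] with x hx
      have hx' : (pr p hφ).1 x = φ x := hx
      rw [hx']; simp [mul_comm]
    rw [e1, e2]
    exact hsol φ hφ
  have hmin : ∀ s ∈ TS p Ω, J p ℓ w ≤ J p ℓ s := by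
    intro s hs
    have h1 := convex_int hq w.2 s.2
    rw [← hΦ, map_sub, hcl s (subset_closure hs), hcl w hw] at h1
    unfold J
    linarith
  refine le_antisymm ?_ ?_
  · refine le_of_forall_pos_le_add fun κ hκ => ?_
    obtain ⟨s, hs, h⟩ := hI.ex κ hκ
    exact (hmin s hs).trans h.le
  · have hc : IsClosed {z : Lp ℝ (ENNReal.ofReal p) (mu Ω) ×
        Lp E (ENNReal.ofReal p) (mu Ω) | I ≤ J p ℓ z} :=
      isClosed_le continuous_const (continuous_J hp ℓ)
    exact closure_minimal (fun s hs => hI.le s hs) hc hw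

end EL

end Pool.Agent.Q186.PL
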