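import Pool.Agent.Q186.PL.Cmp

/-!
# Solutions of the Dirichlet problem for the p-Laplacian dominate sequences of solutions
-/

set_option autoImplicit false

open MeasureTheory Filter Topology Set
open scoped ENNReal NNReal ContDiff

namespace Pool.Agent.Q186.PL

variable {E : Type*} [NormedAddCommGroup E] [InnerProductSpace ℝ E] [FiniteDimensional ℝ E]
  [MeasurableSpace E] [BorelSpace E]

section
variable {Ω : Set E} {p q : ℝ} [Fact (1 ≤ ENNReal.ofReal p)]

theorem closure_of_inW0 {u : E → ℝ} {G : E → E} (h : InW0 p Ω u G) :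
    ((h.1.toLp u, h.2.1.toLp G) : Lp ℝ (ENNReal.ofReal p) (mu Ω) ×
      Lp E (ENNReal.ofReal p) (mu Ω)) ∈ closure (TS p Ω : Set (Lp ℝ (ENNReal.ofReal p) (mu Ω) ×
      Lp E (ENNReal.ofReal p) (mu Ω))) := by
  obtain ⟨hu, hG, φ, hφ, h1, h2⟩ := h
  have e1 : Tendsto (fun n => ((hφ n).memLp (ENNReal.ofReal p)).toLp (φ n)) atTop
      (𝓝 (hu.toLp u)) :=
    (Lp.tendsto_Lp_iff_tendsto_eLpNorm'' _ _ _ _).2 h1
  have e2 : Tendsto (fun n => ((hφ n).memLp_grad (ENNReal.ofReal p)).toLp (gradient (φ n))) atTop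
      (𝓝 (hG.toLp G)) :=
    (Lp.tendsto_Lp_iff_tendsto_eLpNorm'' _ _ _ _).2 h2
  exact mem_closure_of_tendsto (e1.prodMk_nhds e2) (Eventually.of_forall fun n => ⟨_, hφ n, rfl⟩)

theorem inW0_of_closure {w : Lp ℝ (ENNReal.ofReal p) (mu Ω) × Lp E (ENNReal.ofReal p) (mu Ω)}
    (hw : w ∈ closure (TS p Ω : Set (Lp ℝ (ENNReal.ofReal p) (mu Ω) ×
      Lp E (ENNReal.ofReal p) (mu Ω)))) : InW0 p Ω w.1 w.2 := by
  obtain ⟨s, hs, hsl⟩ := mem_closure_iff_seq_limit.1 hw
  choose φ hφ hφe using hs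
  refine ⟨Lp.memLp _, Lp.memLp _, φ, hφ, ?_, ?_⟩
  · have h1 : Tendsto (fun n => ((hφ n).memLp (ENNReal.ofReal p)).toLp (φ n)) atTop
        (𝓝 ((Lp.memLp w.1).toLp w.1)) := by
      rw [Lp.toLp_coeFn]
      have := (continuous_fst.tendsto w).comp hsl
      refine this.congr fun n => ?_
      simp only [Function.comp_apply]
      rw [hφe n]; rfl
    exact (Lp.tendsto_Lp_iff_tendsto_eLpNorm'' _ _ _ _).1 h1
  · have h1 : Tendsto (fun n => ((hφ n).memLp_grad (ENNReal.ofReal p)).toLp (gradient (φ n))) atTop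
        (𝓝 ((Lp.memLp w.2).toLp w.2)) := by
      rw [Lp.toLp_coeFn]
      have := (continuous_snd.tendsto w).comp hsl
      refine this.congr fun n => ?_
      simp only [Function.comp_apply]
      rw [hφe n]; rfl
    exact (Lp.tendsto_Lp_iff_tendsto_eLpNorm'' _ _ _ _).1 h1

theorem UC_Lp (hp : 1 < p) : UC p (Lp E (ENNReal.ofReal p) (mu Ω)) := fun _ hδ => uc_Lp hp hδ

/-- there is a solution for `F` which is above every solution with a smaller right hand side -/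
theorem exists_sol [Nontrivial E] (hΩm : MeasurableSet Ω) {R : ℝ} (hR : 0 < R)
    (hΩ : Ω ⊆ Metric.ball 0 R) [IsFiniteMeasure (mu Ω)] (hq : p.HolderConjugate q) {F : E → ℝ}
    (hF : MemLp F (ENNReal.ofReal q) (mu Ω)) :
    ∃ v : E → ℝ, Sol p Ω F v ∧ ∀ (F' u : E → ℝ), MemLp F' (ENNReal.ofReal q) (mu Ω) →
      (∀ᵐ x ∂(mu Ω), F' x ≤ F x) → Sol p Ω F' u → ∀ᵐ x ∂(mu Ω), u x ≤ v x := by
  have hp : 1 < p := hq.lt
  obtain ⟨ℓ, hℓ⟩ := (exists_func hq hF).2
  have hP := poincare (p := p) hΩm hR hΩ hp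
  obtain ⟨I, hI⟩ := exists_inf hp (by positivity) ℓ (TS p Ω) hP
  obtain ⟨w, hw, hJ, hall⟩ := exists_min hp (by positivity) (UC_Lp hp) ℓ (TS p Ω) hP hI
  refine ⟨w.1, ⟨w.2, inW0_of_closure hw, fun φ hφ => ?_⟩, ?_⟩
  · exact euler_lagrange hq hF ℓ hℓ hI.le hw hJ hφ
  · rintro F' u hF' hle ⟨G, hG, hsol⟩
    obtain ⟨ℓ', hℓ'⟩ := (exists_func hq hF').2
    obtain ⟨I', hI'⟩ := exists_inf hp (by positivity) ℓ' (TS p Ω) hP
    have hcl := closure_of_inW0 hG
    have hJ' : J p ℓ' ((hG.1.toLp u, hG.2.1.toLp G) : Lp ℝ (ENNReal.ofReal p) (mu Ω) ×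
        Lp E (ENNReal.ofReal p) (mu Ω)) = I' := by
      refine weak_min hq ℓ' hℓ' hcl (fun φ hφ => ?_) hI'
      rw [← hsol φ hφ]
      refine integral_congr_ae ?_
      filter_upwards [hG.2.1.coeFn_toLp] with x hx
      simp only [hx]
      rfl
    have h1 := comparison hq hF hF' hle ℓ ℓ' hℓ hℓ' hI hI' hw hJ hall hcl hJ'
    have h2 := (Lp.coeFn_le _ _).2 h1
    filter_upwards [h2, hG.1.coeFn_toLp] with x h3 h4
    rw [← h4]; exact h3

end

/-- scaling of solutions -/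
theorem Sol.scale {Ω : Set E} {p : ℝ} {F u : E → ℝ} (h : Sol p Ω F u) {t : ℝ}
    (ht : 0 < t) : Sol p Ω (fun x => t ^ (p - 1) * F x) (fun x => t * u x) := by
  obtain ⟨G, ⟨hu, hG, φ, hφ, h1, h2⟩, hsol⟩ := h
  refine ⟨fun x => t • G x, ⟨hu.const_mul t, hG.const_smul t, fun n x => t * φ n x,
    fun n => (hφ n).smul t, ?_, ?_⟩, fun ψ hψ => ?_⟩
  · have e : ∀ n, eLpNorm (fun x => t * φ n x - t * u x) (ENNReal.ofReal p) (volume.restrict Ω)
        = ENNReal.ofReal t * eLpNorm (fun x => φ n x - u x) (ENNReal.ofReal p)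
          (volume.restrict Ω) := by
      intro n
      have : (fun x => t * φ n x - t * u x) = t • fun x => φ n x - u x := by
        ext x; simp only [Pi.smul_apply, smul_eq_mul]; ring
      rw [this, eLpNorm_const_smul, Real.enorm_eq_ofReal ht.le]
    simp_rw [e]
    have := ENNReal.Tendsto.const_mul (a := ENNReal.ofReal t) h1 (Or.inr ENNReal.ofReal_ne_top)
    rwa [mul_zero] at this
  · have e : ∀ n, eLpNorm (fun x => gradient (fun x => t * φ n x) x - t • G x) (ENNReal.ofReal p)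
        (volume.restrict Ω) = ENNReal.ofReal t * eLpNorm (fun x => gradient (φ n) x - G x)
          (ENNReal.ofReal p) (volume.restrict Ω) := by
      intro n
      have : (fun x => gradient (fun x => t * φ n x) x - t • G x) =
          t • fun x => gradient (φ n) x - G x := by
        ext1 x
        rw [gradient_smul' _ ((hφ n).differentiableAt x)]
        simp only [Pi.smul_apply, smul_sub]
      rw [this, eLpNorm_const_smul, Real.enorm_eq_ofReal ht.le]
    simp_rw [e]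
    have := ENNReal.Tendsto.const_mul (a := ENNReal.ofReal t) h2 (Or.inr ENNReal.ofReal_ne_top)
    rwa [mul_zero] at this
  · have e1 : ∫ x in Ω, t ^ (p - 1) * F x * ψ x = t ^ (p - 1) * ∫ x in Ω, F x * ψ x := by
      rw [← integral_const_mul]; simp only [mul_assoc]
    rw [e1, ← hsol ψ hψ, ← integral_const_mul]
    refine integral_congr_ae (Eventually.of_forall fun x => ?_)
    simp only
    rw [norm_smul, Real.norm_eq_abs, abs_of_pos ht, Real.mul_rpow ht.le (norm_nonneg _),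
      real_inner_smul_left, real_inner_smul_left, real_inner_smul_left]
    have : t ^ (p - 1) = t ^ (p - 2) * t := by
      rw [show p - 1 = (p - 2) + 1 by ring, Real.rpow_add_one ht.ne']
    rw [this]; ring

/-- one function of `L^q` above small multiples of all functions of a sequence -/
theorem exists_dominating {Ω : Set E} {q : ℝ} (hq1 : 1 ≤ q) {F : ℕ → E → ℝ}
    (hF : ∀ k, MemLp (F k) (ENNReal.ofReal q) (mu Ω)) :
    ∃ (c : ℕ → ℝ) (F0 : E → ℝ), (∀ k, 0 < c k) ∧ MemLp F0 (ENNReal.ofReal q) (mu Ω) ∧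
      ∀ k, ∀ᵐ x ∂(mu Ω), c k * F k x ≤ F0 x := by
  have : Fact (1 ≤ ENNReal.ofReal q) := ⟨by simpa using hq1⟩
  set f : ℕ → Lp ℝ (ENNReal.ofReal q) (mu Ω) := fun k => (hF k).toLp (F k) with hf
  set c : ℕ → ℝ := fun k => (1 / 2) ^ k / (1 + ‖f k‖) with hc
  have hc0 : ∀ k, 0 < c k := fun k => by
    simp only [hc]
    have := norm_nonneg (f k)
    positivity
  set g : ℕ → Lp ℝ (ENNReal.ofReal q) (mu Ω) := fun k => c k • |f k| with hg
  have hsum : Summable g := by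
    refine Summable.of_norm_bounded (g := fun k : ℕ => ((1 : ℝ) / 2) ^ k)
      (summable_geometric_of_lt_one (by norm_num) (by norm_num)) fun k => ?_
    simp only [hg]
    rw [norm_smul, norm_abs_eq_norm, Real.norm_eq_abs, abs_of_pos (hc0 k)]
    simp only [hc]
    have h0 := norm_nonneg (f k)
    rw [div_mul_eq_mul_div, div_le_iff₀ (by positivity)]
    exact mul_le_mul_of_nonneg_left (by linarith) (by positivity)
  have hg0 : ∀ k, 0 ≤ g k := by
    intro k
    rw [← Lp.coeFn_nonneg]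
    filter_upwards [Lp.coeFn_smul (c k) |f k|, Lp.coeFn_abs (f k)] with x h1 h2
    simp only [hg]
    rw [h1, Pi.smul_apply, h2, smul_eq_mul]
    exact mul_nonneg (hc0 k).le (abs_nonneg _)
  refine ⟨c, ⇑(∑' k, g k), hc0, Lp.memLp _, fun k => ?_⟩
  have h1 : g k ≤ ∑' k, g k := hsum.le_tsum k fun j _ => hg0 j
  have h2 := (Lp.coeFn_le _ _).2 h1
  filter_upwards [h2, Lp.coeFn_smul (c k) |f k|, Lp.coeFn_abs (f k), (hF k).coeFn_toLp]
    with x h3 h4 h5 h6
  simp only [hg] at h3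
  rw [h4, Pi.smul_apply, h5, smul_eq_mul] at h3
  have h6' : f k x = F k x := h6
  rw [h6'] at h3
  exact (mul_le_mul_of_nonneg_left (le_abs_self _) (hc0 k).le).trans h3

/-- Every sequence of functions of `X(Ω, p)` is, up to positive factors, below one function of
`X(Ω, p)`. -/
theorem dominate [Nontrivial E] {Ω : Set E} (hΩo : IsOpen Ω) (hΩb : Bornology.IsBounded Ω)
    {p : ℝ} (hp : 1 < p) (u : ℕ → E → ℝ) (hu : ∀ k, u k ∈ XSet p Ω) :
    ∃ v ∈ XSet p Ω, ∃ t : ℕ → ℝ, (∀ k, 0 < t k) ∧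
      ∀ k, ∀ᵐ x ∂(volume.restrict Ω), t k * u k x ≤ v x := by
  have : Fact (1 ≤ ENNReal.ofReal p) := ⟨by simpa using hp.le⟩
  have hq : p.HolderConjugate (p / (p - 1)) := Real.HolderConjugate.conjExponent hp
  obtain ⟨R, hR⟩ := hΩb.subset_ball (0 : E)
  have hR' : Ω ⊆ Metric.ball 0 (max R 1) := hR.trans (Metric.ball_subset_ball (le_max_left _ _))
  have hR0 : 0 < max R 1 := lt_of_lt_of_le one_pos (le_max_right _ _)
  have : IsFiniteMeasure (mu Ω) := ⟨by
    rw [Measure.restrict_apply_univ]; exact hΩb.measure_lt_top⟩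
  choose F hF hS using hu
  obtain ⟨c, F0, hc, hF0, hle⟩ := exists_dominating hq.symm.lt.le hF
  obtain ⟨v, hv, hmax⟩ := exists_sol (p := p) hΩo.measurableSet hR0 hR' hq hF0
  refine ⟨v, ⟨F0, hF0, hv⟩, fun k => (c k) ^ (1 / (p - 1)), fun k => by
    have := hc k; positivity, fun k => ?_⟩
  have hck : ((c k) ^ (1 / (p - 1))) ^ (p - 1) = c k := by
    rw [← Real.rpow_mul (hc k).le, one_div_mul_cancel (by linarith), Real.rpow_one]
  have hsc := (hS k).scale (t := (c k) ^ (1 / (p - 1))) (by have := hc k; positivity)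
  rw [hck] at hsc
  exact hmax _ _ ((hF k).const_mul (c k)) (hle k) hsc

theorem sing_mono {Ω : Set E} {u v : E → ℝ} {t : ℝ} (ht : 0 < t)
    (h : ∀ᵐ x ∂(volume.restrict Ω), t * u x ≤ v x) : Sing Ω u ⊆ Sing Ω v := by
  rintro a ⟨ha, C, hC, γ, hγ, r, hr, hb⟩
  refine ⟨ha, t * C, by positivity, γ, hγ, r, hr, ?_⟩
  filter_upwards [h, hb] with x h1 h2 h3
  have h4 := mul_le_mul_of_nonneg_left (h2 h3) ht.le
  calc t * C * ‖x - a‖ ^ (-γ) = t * (C * ‖x - a‖ ^ (-γ)) := by ring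
    _ ≤ t * u x := h4
    _ ≤ v x := h1

theorem X_nonempty [Nontrivial E] {Ω : Set E} (hΩo : IsOpen Ω) (hΩb : Bornology.IsBounded Ω)
    {p : ℝ} (hp : 1 < p) : (XSet p Ω).Nonempty := by
  have : Fact (1 ≤ ENNReal.ofReal p) := ⟨by simpa using hp.le⟩
  have hq : p.HolderConjugate (p / (p - 1)) := Real.HolderConjugate.conjExponent hp
  obtain ⟨R, hR⟩ := hΩb.subset_ball (0 : E)
  have hR' : Ω ⊆ Metric.ball 0 (max R 1) := hR.trans (Metric.ball_subset_ball (le_max_left _ _))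
  have hR0 : 0 < max R 1 := lt_of_lt_of_le one_pos (le_max_right _ _)
  have : IsFiniteMeasure (mu Ω) := ⟨by
    rw [Measure.restrict_apply_univ]; exact hΩb.measure_lt_top⟩
  have h0 : MemLp (fun _ : E => (0 : ℝ)) (ENNReal.ofReal (p / (p - 1))) (mu Ω) := MemLp.zero
  obtain ⟨v, hv, _⟩ := exists_sol (p := p) hΩo.measurableSet hR0 hR' hq h0
  exact ⟨v, _, h0, hv⟩

theorem XSet.scale {Ω : Set E} {p : ℝ} {u : E → ℝ} (h : u ∈ XSet p Ω) {t : ℝ} (ht : 0 < t) :
    (fun x => t * u x) ∈ XSet p Ω := by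
  obtain ⟨F, hF, hS⟩ := h
  exact ⟨_, hF.const_mul _, hS.scale ht⟩

/-- every function of `X(Ω, p)` is below a maximally singular one -/
theorem main [Nontrivial E] {Ω : Set E} (hΩo : IsOpen Ω) (hΩb : Bornology.IsBounded Ω)
    {p : ℝ} (hp : 1 < p) {u0 : E → ℝ} (hu0 : u0 ∈ XSet p Ω) :
    ∃ v : E → ℝ, MaxSing Ω (XSet p Ω) v ∧ ∀ᵐ x ∂(volume.restrict Ω), u0 x ≤ v x := by
  obtain ⟨d, _, hd, hmem⟩ := exists_seq_tendsto_sSup
    (S := (fun u => dimH (Sing Ω u)) '' XSet p Ω) (⟨_, u0, hu0, rfl⟩) (OrderTop.bddAbove _)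
  choose u hu hud using hmem
  set w : ℕ → E → ℝ := fun k => Nat.casesOn k u0 u with hw
  have hwX : ∀ k, w k ∈ XSet p Ω := by
    intro k
    cases k with
    | zero => exact hu0
    | succ k => exact hu k
  obtain ⟨v, hv, t, ht, hle⟩ := dominate hΩo hΩb hp w hwX
  have hv' : (fun x => (t 0)⁻¹ * v x) ∈ XSet p Ω := XSet.scale hv (inv_pos.2 (ht 0))
  refine ⟨_, ⟨hv', le_antisymm (le_iSup₂ (f := fun u _ => dimH (Sing Ω u)) _ hv') ?_⟩, ?_⟩
  · rw [← sSup_image]
    refine le_of_tendsto' hd fun k => ?_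
    rw [← hud k]
    refine dimH_mono (sing_mono (t := (t 0)⁻¹ * t (k + 1))
      (mul_pos (inv_pos.2 (ht 0)) (ht (k + 1))) ?_)
    filter_upwards [hle (k + 1)] with x hx
    have h1 := mul_le_mul_of_nonneg_left hx (inv_pos.2 (ht 0)).le
    rw [mul_assoc]
    exact h1
  · filter_upwards [hle 0] with x hx
    have h1 := mul_le_mul_of_nonneg_left hx (inv_pos.2 (ht 0)).le
    rw [← mul_assoc, inv_mul_cancel₀ (ht 0).ne', one_mul] at h1
    exact h1

end Pool.Agent.Q186.PL
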