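import Pool.Agent.Q186.PL.UC

/-!
# Minimising `‖g‖^p / p - ℓ(f)` over a subspace of pairs `(f, g)` with a Poincaré inequality
-/

set_option autoImplicit false

open MeasureTheory Filter Topology Set

namespace Pool.Agent.Q186.PL

variable {F G : Type*} [NormedAddCommGroup F] [NormedSpace ℝ F] [NormedAddCommGroup G]
  [NormedSpace ℝ G]

/-- the uniform convexity inequality for a normed space -/
def UC (p : ℝ) (G : Type*) [NormedAddCommGroup G] [NormedSpace ℝ G] : Prop :=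
  ∀ δ : ℝ, 0 < δ → ∃ K : ℝ, 0 ≤ K ∧ ∀ f g : G, ‖f - g‖ ^ p ≤
      δ * (‖f‖ ^ p + ‖g‖ ^ p) + K * ((‖f‖ ^ p + ‖g‖ ^ p) / 2 - ‖(1 / 2 : ℝ) • (f + g)‖ ^ p)

/-- the functional -/
noncomputable def J (p : ℝ) (ℓ : F →L[ℝ] ℝ) (s : F × G) : ℝ := ‖s.2‖ ^ p / p - ℓ s.1

theorem continuous_J {p : ℝ} (hp : 1 < p) (ℓ : F →L[ℝ] ℝ) :
    Continuous (J p ℓ : F × G → ℝ) := by
  unfold J
  have h0 : (0 : ℝ) ≤ p := by linarith
  exact ((continuous_snd.norm.rpow_const fun _ => Or.inr h0).div_const p).sub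
    (ℓ.continuous.comp continuous_fst)

/-- `I` is the infimum of the functional over `S` -/
structure IsInf (p : ℝ) (ℓ : F →L[ℝ] ℝ) (S : Submodule ℝ (F × G)) (I : ℝ) : Prop where
  le : ∀ s ∈ S, I ≤ J p ℓ s
  ex : ∀ κ : ℝ, 0 < κ → ∃ s ∈ S, J p ℓ s < I + κ

theorem coercive {p C : ℝ} (hp : 1 < p) (hC : 0 ≤ C) (ℓ : F →L[ℝ] ℝ) (S : Submodule ℝ (F × G))
    (hP : ∀ s ∈ S, ‖s.1‖ ≤ C * ‖s.2‖) :
    ∃ A : ℝ, 0 ≤ A ∧ ∀ s ∈ S, ‖s.2‖ ^ p ≤ 2 * p * (J p ℓ s + A) := by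
  have h0 : 0 < p := by linarith
  obtain ⟨q, hq⟩ : ∃ q, p.HolderConjugate q := ⟨_, Real.HolderConjugate.conjExponent hp⟩
  set ε : ℝ := (1 / 2) ^ p⁻¹ with hε
  have hε0 : 0 < ε := by positivity
  have hεp : ε ^ p = 1 / 2 := by
    rw [hε, ← Real.rpow_mul (by norm_num), inv_mul_cancel₀ h0.ne', Real.rpow_one]
  set B : ℝ := ‖ℓ‖ * C with hB
  have hB0 : 0 ≤ B := by positivity
  have hq0 : 0 < q := hq.symm.pos
  refine ⟨(B / ε) ^ q / q, by positivity, fun s hs => ?_⟩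
  have h1 : ℓ s.1 ≤ B * ‖s.2‖ := by
    calc ℓ s.1 ≤ ‖ℓ s.1‖ := Real.le_norm_self _
      _ ≤ ‖ℓ‖ * ‖s.1‖ := ℓ.le_opNorm _
      _ ≤ ‖ℓ‖ * (C * ‖s.2‖) := mul_le_mul_of_nonneg_left (hP s hs) (norm_nonneg _)
      _ = B * ‖s.2‖ := by rw [hB]; ring
  have h2 := Real.young_inequality_of_nonneg (a := ε * ‖s.2‖) (b := B / ε) (by positivity)
    (by positivity) hq
  have h3 : ε * ‖s.2‖ * (B / ε) = B * ‖s.2‖ := by field_simp
  rw [h3, Real.mul_rpow hε0.le (norm_nonneg _), hεp] at h2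
  unfold J
  have h4 : ‖s.2‖ ^ p = 2 * p * (‖s.2‖ ^ p / p - 1 / 2 * ‖s.2‖ ^ p / p) := by
    field_simp; ring
  have h5 : ‖s.2‖ ^ p / p - 1 / 2 * ‖s.2‖ ^ p / p ≤
      ‖s.2‖ ^ p / p - ℓ s.1 + (B / ε) ^ q / q := by linarith
  calc ‖s.2‖ ^ p = 2 * p * (‖s.2‖ ^ p / p - 1 / 2 * ‖s.2‖ ^ p / p) := h4
    _ ≤ _ := mul_le_mul_of_nonneg_left h5 (by positivity)

theorem exists_inf {p C : ℝ} (hp : 1 < p) (hC : 0 ≤ C) (ℓ : F →L[ℝ] ℝ) (S : Submodule ℝ (F × G))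
    (hP : ∀ s ∈ S, ‖s.1‖ ≤ C * ‖s.2‖) : ∃ I : ℝ, IsInf p ℓ S I := by
  have h0 : 0 < p := by linarith
  obtain ⟨A, hA, h⟩ := coercive hp hC ℓ S hP
  have hb : BddBelow (J p ℓ '' (S : Set (F × G))) := by
    refine ⟨-A, ?_⟩
    rintro _ ⟨s, hs, rfl⟩
    have h1 := h s hs
    have h2 : 0 ≤ ‖s.2‖ ^ p := by positivity
    have h3 : 0 ≤ 2 * p * (J p ℓ s + A) := h2.trans h1
    have h4 : 0 ≤ J p ℓ s + A := by
      by_contra hn
      push Not at hn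
      have : 2 * p * (J p ℓ s + A) < 0 := mul_neg_of_pos_of_neg (by positivity) hn
      linarith
    linarith
  have hne : (J p ℓ '' (S : Set (F × G))).Nonempty := ⟨_, 0, S.zero_mem, rfl⟩
  refine ⟨sInf (J p ℓ '' (S : Set (F × G))), fun s hs => csInf_le hb ⟨s, hs, rfl⟩,
    fun κ hκ => ?_⟩
  obtain ⟨_, ⟨s, hs, rfl⟩, hlt⟩ := exists_lt_of_csInf_lt hne
    (show sInf (J p ℓ '' (S : Set (F × G))) < sInf (J p ℓ '' (S : Set (F × G))) + κ by linarith)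
  exact ⟨s, hs, hlt⟩

/-- near minimisers are near to each other -/
theorem near {p C : ℝ} (hp : 1 < p) (hC : 0 ≤ C) (hU : UC p G) (ℓ : F →L[ℝ] ℝ)
    (S : Submodule ℝ (F × G)) (hP : ∀ s ∈ S, ‖s.1‖ ≤ C * ‖s.2‖) {I : ℝ} (hI : IsInf p ℓ S I)
    {η : ℝ} (hη : 0 < η) :
    ∃ κ : ℝ, 0 < κ ∧ ∀ s ∈ S, ∀ t ∈ S, J p ℓ s ≤ I + κ → J p ℓ t ≤ I + κ → ‖s - t‖ ≤ η := by
  have h0 : 0 < p := by linarith
  obtain ⟨A, hA, hco⟩ := coercive hp hC ℓ S hP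
  set m : ℝ := max C 1 with hm
  have hm1 : 1 ≤ m := le_max_right _ _
  have hm0 : 0 < m := by linarith
  set e : ℝ := (η / m) ^ p with he
  have he0 : 0 < e := by positivity
  set M : ℝ := max (2 * p * (I + 1 + A)) 0 with hM
  have hM0 : 0 ≤ M := le_max_right _ _
  obtain ⟨K, hK, huc⟩ := hU (e / (4 * (M + 1))) (by positivity)
  set κ : ℝ := min 1 (e / (2 * (K * p + 1))) with hκ
  have hKp : 0 < K * p + 1 := by positivity
  have hκ0 : 0 < κ := lt_min one_pos (by positivity)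
  refine ⟨κ, hκ0, fun s hs t ht h1 h2 => ?_⟩
  have hκ1 : κ ≤ 1 := min_le_left _ _
  have hκ2 : κ * (2 * (K * p + 1)) ≤ e := by
    have : κ ≤ e / (2 * (K * p + 1)) := min_le_right _ _
    rwa [le_div_iff₀ (by positivity)] at this
  have bs : ‖s.2‖ ^ p ≤ M := by
    refine (hco s hs).trans (le_trans ?_ (le_max_left _ _))
    exact mul_le_mul_of_nonneg_left (by linarith) (by positivity)
  have bt : ‖t.2‖ ^ p ≤ M := by
    refine (hco t ht).trans (le_trans ?_ (le_max_left _ _))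
    exact mul_le_mul_of_nonneg_left (by linarith) (by positivity)
  have hmid : (1 / 2 : ℝ) • (s + t) ∈ S := S.smul_mem _ (S.add_mem hs ht)
  have h3 := hI.le _ hmid
  have h4 : (J p ℓ s + J p ℓ t) / 2 - J p ℓ ((1 / 2 : ℝ) • (s + t)) =
      ((‖s.2‖ ^ p + ‖t.2‖ ^ p) / 2 - ‖(1 / 2 : ℝ) • (s.2 + t.2)‖ ^ p) / p := by
    unfold J
    simp only [Prod.smul_fst, Prod.smul_snd, Prod.fst_add, Prod.snd_add, map_smul, map_add,
      smul_eq_mul]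
    ring
  have h5 : ((‖s.2‖ ^ p + ‖t.2‖ ^ p) / 2 - ‖(1 / 2 : ℝ) • (s.2 + t.2)‖ ^ p) / p ≤ κ := by
    rw [← h4]; linarith
  rw [div_le_iff₀ h0] at h5
  have h6 := huc s.2 t.2
  have h7 : e / (4 * (M + 1)) * (‖s.2‖ ^ p + ‖t.2‖ ^ p) ≤ e / 2 := by
    calc e / (4 * (M + 1)) * (‖s.2‖ ^ p + ‖t.2‖ ^ p) ≤ e / (4 * (M + 1)) * (2 * (M + 1)) :=
          mul_le_mul_of_nonneg_left (by linarith) (by positivity)
      _ = e / 2 := by field_simp; ring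
  have h8 : K * ((‖s.2‖ ^ p + ‖t.2‖ ^ p) / 2 - ‖(1 / 2 : ℝ) • (s.2 + t.2)‖ ^ p) ≤ e / 2 := by
    calc _ ≤ K * (κ * p) := mul_le_mul_of_nonneg_left h5 hK
      _ = κ * (K * p) := by ring
      _ ≤ κ * (K * p + 1) := mul_le_mul_of_nonneg_left (by linarith) hκ0.le
      _ ≤ e / 2 := by linarith
  have h9 : ‖s.2 - t.2‖ ^ p ≤ (η / m) ^ p := by linarith
  have h10 : ‖s.2 - t.2‖ ≤ η / m :=
    (Real.rpow_le_rpow_iff (norm_nonneg _) (by positivity) h0).1 h9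
  have h11 : ‖s.1 - t.1‖ ≤ C * ‖s.2 - t.2‖ := hP (s - t) (S.sub_mem hs ht)
  have h12 : ‖s.1 - t.1‖ ≤ η := by
    calc ‖s.1 - t.1‖ ≤ C * ‖s.2 - t.2‖ := h11
      _ ≤ m * (η / m) := mul_le_mul (le_max_left _ _) h10 (norm_nonneg _) hm0.le
      _ = η := by field_simp
  have h13 : ‖s.2 - t.2‖ ≤ η := h10.trans (div_le_self hη.le hm1)
  rw [Prod.norm_def]
  exact max_le h12 h13

/-- existence of the minimiser in the closure; all minimising sequences converge to it -/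
theorem exists_min [CompleteSpace F] [CompleteSpace G] {p C : ℝ} (hp : 1 < p) (hC : 0 ≤ C)
    (hU : UC p G) (ℓ : F →L[ℝ] ℝ) (S : Submodule ℝ (F × G))
    (hP : ∀ s ∈ S, ‖s.1‖ ≤ C * ‖s.2‖) {I : ℝ} (hI : IsInf p ℓ S I) :
    ∃ w : F × G, w ∈ closure (S : Set (F × G)) ∧ J p ℓ w = I ∧
      ∀ s : ℕ → F × G, (∀ n, s n ∈ S) → Tendsto (fun n => J p ℓ (s n)) atTop (𝓝 I) →
        Tendsto s atTop (𝓝 w) := by
  have hsel : ∀ n : ℕ, ∃ s ∈ S, J p ℓ s < I + 1 / ((n : ℝ) + 1) := fun n =>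
    hI.ex _ (by positivity)
  choose s hsS hsJ using hsel
  have cau : ∀ s : ℕ → F × G, (∀ n, s n ∈ S) → Tendsto (fun n => J p ℓ (s n)) atTop (𝓝 I) →
      CauchySeq s := by
    intro s hs hJ
    rw [Metric.cauchySeq_iff]
    intro η hη
    obtain ⟨κ, hκ, h⟩ := near hp hC hU ℓ S hP hI (half_pos hη)
    obtain ⟨n0, hn0⟩ := eventually_atTop.1 (hJ.eventually (Iio_mem_nhds (show I < I + κ by linarith)))
    refine ⟨n0, fun m hm n hn => ?_⟩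
    rw [dist_eq_norm]
    exact (h _ (hs m) _ (hs n) (le_of_lt (hn0 m hm)) (le_of_lt (hn0 n hn))).trans_lt
      (half_lt_self hη)
  have hJs : Tendsto (fun n => J p ℓ (s n)) atTop (𝓝 I) := by
    refine tendsto_of_tendsto_of_tendsto_of_le_of_le tendsto_const_nhds
      (h := fun n : ℕ => I + 1 / ((n : ℝ) + 1)) ?_ (fun n => hI.le _ (hsS n))
      fun n => (hsJ n).le
    simpa using tendsto_const_nhds.add (tendsto_one_div_add_atTop_nhds_zero_nat (𝕜 := ℝ))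
  obtain ⟨w, hw⟩ := cauchySeq_tendsto_of_complete (cau s hsS hJs)
  refine ⟨w, mem_closure_of_tendsto hw (Eventually.of_forall hsS), ?_, fun t ht hJt => ?_⟩
  · exact tendsto_nhds_unique ((continuous_J hp ℓ).tendsto w |>.comp hw) hJs
  · -- compare with the sequence `s`
    rw [Metric.tendsto_atTop]
    intro η hη
    obtain ⟨κ, hκ, h⟩ := near hp hC hU ℓ S hP hI (show 0 < η / 4 by linarith)
    obtain ⟨n1, hn1⟩ := eventually_atTop.1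
      (hJt.eventually (Iio_mem_nhds (show I < I + κ by linarith)))
    obtain ⟨n2, hn2⟩ := eventually_atTop.1
      (hJs.eventually (Iio_mem_nhds (show I < I + κ by linarith)))
    obtain ⟨n3, hn3⟩ := (Metric.tendsto_atTop.1 hw) (η / 4) (by linarith)
    refine ⟨n1, fun n hn => ?_⟩
    have e1 : ‖t n - s (max n2 n3)‖ ≤ η / 4 :=
      h _ (ht n) _ (hsS _) (le_of_lt (hn1 n hn)) (le_of_lt (hn2 _ (le_max_left _ _)))
    have e2 := hn3 (max n2 n3) (le_max_right _ _)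
    calc dist (t n) w ≤ dist (t n) (s (max n2 n3)) + dist (s (max n2 n3)) w := dist_triangle _ _ _
      _ < η := by rw [dist_eq_norm (t n)]; linarith

end Pool.Agent.Q186.PL
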