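import Pool.Agent.Q186.PL.Poin

/-!
# Pairs `(φ, ∇φ)` in `L^p × L^p`
-/

set_option autoImplicit false

open MeasureTheory Filter Topology Set
open scoped ENNReal NNReal ContDiff

namespace Pool.Agent.Q186.PL

variable {E : Type*} [NormedAddCommGroup E] [InnerProductSpace ℝ E] [FiniteDimensional ℝ E]
  [MeasurableSpace E] [BorelSpace E]

/-- Lebesgue measure on `Ω` -/
noncomputable abbrev mu (Ω : Set E) : Measure E := volume.restrict Ω

theorem Test.memLp {Ω : Set E} {φ : E → ℝ} (hφ : Test Ω φ) (p : ℝ≥0∞) : MemLp φ p (mu Ω) :=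
  (hφ.smooth.continuous.memLp_of_hasCompactSupport hφ.comp).restrict Ω

theorem Test.memLp_grad {Ω : Set E} {φ : E → ℝ} (hφ : Test Ω φ) (p : ℝ≥0∞) :
    MemLp (gradient φ) p (mu Ω) :=
  (hφ.continuous_grad.memLp_of_hasCompactSupport hφ.comp_grad).restrict Ω

/-- the pair `(φ, ∇φ)` -/
noncomputable def pr (p : ℝ) {Ω : Set E} {φ : E → ℝ} (hφ : Test Ω φ) :
    Lp ℝ (ENNReal.ofReal p) (mu Ω) × Lp E (ENNReal.ofReal p) (mu Ω) :=
  ((hφ.memLp _).toLp φ, (hφ.memLp_grad _).toLp (gradient φ))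

/-- the space of all pairs `(φ, ∇φ)` -/
noncomputable def TS (p : ℝ) (Ω : Set E) :
    Submodule ℝ (Lp ℝ (ENNReal.ofReal p) (mu Ω) × Lp E (ENNReal.ofReal p) (mu Ω)) where
  carrier := {w | ∃ (φ : E → ℝ) (hφ : Test Ω φ), w = pr p hφ}
  zero_mem' := by
    refine ⟨_, Test.zero Ω, ?_⟩
    unfold pr
    refine Prod.ext ?_ ?_
    · symm
      rw [Prod.fst_zero, Lp.eq_zero_iff_ae_eq_zero]
      exact (MemLp.coeFn_toLp ((Test.zero Ω).memLp _)).trans (Eventually.of_forall fun x => rfl)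
    · symm
      rw [Prod.snd_zero, Lp.eq_zero_iff_ae_eq_zero]
      refine (MemLp.coeFn_toLp ((Test.zero Ω).memLp_grad _)).trans
        (Eventually.of_forall fun x => ?_)
      unfold gradient
      simp
  add_mem' := by
    rintro _ _ ⟨φ, hφ, rfl⟩ ⟨ψ, hψ, rfl⟩
    refine ⟨_, hφ.add hψ, ?_⟩
    unfold pr
    refine Prod.ext ?_ ?_
    · rfl
    · rw [Prod.snd_add, ← MemLp.toLp_add]
      exact MemLp.toLp_congr ((hφ.memLp_grad _).add (hψ.memLp_grad _))
        ((hφ.add hψ).memLp_grad _) (Eventually.of_forall fun x =>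
          (gradient_add' (hφ.differentiableAt x) (hψ.differentiableAt x)).symm)
  smul_mem' := by
    rintro c _ ⟨φ, hφ, rfl⟩
    refine ⟨_, hφ.smul c, ?_⟩
    unfold pr
    refine Prod.ext ?_ ?_
    · rfl
    · rw [Prod.smul_snd, ← MemLp.toLp_const_smul]
      exact MemLp.toLp_congr ((hφ.memLp_grad _).const_smul c)
        ((hφ.smul c).memLp_grad _) (Eventually.of_forall fun x =>
          (gradient_smul' c (hφ.differentiableAt x)).symm)

theorem lintegral_restrict_test {Ω : Set E} (hΩ : MeasurableSet Ω) {V : Type*}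
    [NormedAddCommGroup V] {p : ℝ} (hp : 0 < p) {f : E → V} (hf : ∀ x, x ∉ Ω → f x = 0) :
    ∫⁻ x in Ω, ‖f x‖ₑ ^ p = ∫⁻ x, ‖f x‖ₑ ^ p := by
  rw [← lintegral_indicator hΩ]
  refine lintegral_congr fun x => ?_
  by_cases hx : x ∈ Ω
  · rw [indicator_of_mem hx]
  · rw [indicator_of_notMem hx, hf x hx]
    simp [hp]

theorem norm_toLp_rpow {p : ℝ} (hp : 1 < p) {V : Type*} [NormedAddCommGroup V] {Ω : Set E}
    {f : E → V} (hf : MemLp f (ENNReal.ofReal p) (mu Ω)) :
    ENNReal.ofReal (‖hf.toLp f‖) = (∫⁻ x in Ω, ‖f x‖ₑ ^ p) ^ (1 / p) := by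
  have h0 : 0 < p := by linarith
  rw [Lp.norm_toLp, ENNReal.ofReal_toReal hf.eLpNorm_ne_top,
    eLpNorm_eq_lintegral_rpow_enorm_toReal (by simpa using h0) ENNReal.ofReal_ne_top,
    ENNReal.toReal_ofReal h0.le]

/-- the Poincaré inequality -/
theorem poincare {Ω : Set E} (hΩm : MeasurableSet Ω) {R : ℝ} (hR : 0 < R)
    (hΩ : Ω ⊆ Metric.ball 0 R) [Nontrivial E] {p : ℝ} (hp : 1 < p) :
    ∀ s ∈ TS p Ω, ‖s.1‖ ≤ (2 * R) * ‖s.2‖ := by
  have h0 : 0 < p := by linarith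
  intro s hs
  obtain ⟨φ, hφ, rfl⟩ : ∃ (φ : E → ℝ) (hφ : Test Ω φ), s = pr p hφ := hs
  unfold pr
  have h := poincare_lintegral hR hΩ hp hφ
  rw [← lintegral_restrict_test hΩm h0 (fun x hx => hφ.eq_zero hx),
    ← lintegral_restrict_test hΩm h0 (fun x hx => hφ.grad_eq_zero hx)] at h
  have h1 := ENNReal.rpow_le_rpow h (show 0 ≤ 1 / p by positivity)
  rw [ENNReal.mul_rpow_of_nonneg _ _ (by positivity), ← ENNReal.rpow_mul,
    mul_one_div_cancel h0.ne', ENNReal.rpow_one, ← norm_toLp_rpow hp (hφ.memLp _),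
    ← norm_toLp_rpow hp (hφ.memLp_grad _), ← ENNReal.ofReal_mul (by positivity)] at h1
  have h2R : (0 : ℝ) ≤ 2 * R := by positivity
  refine (ENNReal.ofReal_le_ofReal_iff (mul_nonneg h2R ?_)).1 h1
  rw [Lp.norm_def]
  exact ENNReal.toReal_nonneg

/-- the linear functional `H ↦ ∫ ⟨A, H⟩` on `L^p` for `A ∈ L^q` -/
theorem exists_func {V : Type*} [NormedAddCommGroup V] [InnerProductSpace ℝ V] {Ω : Set E}
    {p q : ℝ} (hq : p.HolderConjugate q) [Fact (1 ≤ ENNReal.ofReal p)] {A : E → V}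
    (hA : MemLp A (ENNReal.ofReal q) (mu Ω)) :
    (∀ H : E → V, MemLp H (ENNReal.ofReal p) (mu Ω) →
      Integrable (fun x => (inner ℝ (A x) (H x) : ℝ)) (mu Ω)) ∧
    ∃ ℓ : Lp V (ENNReal.ofReal p) (mu Ω) →L[ℝ] ℝ, ∀ H : Lp V (ENNReal.ofReal p) (mu Ω),
      ℓ H = ∫ x in Ω, (inner ℝ (A x) (H x) : ℝ) := by
  have hint : ∀ H : E → V, MemLp H (ENNReal.ofReal p) (mu Ω) →
      Integrable (fun x => (inner ℝ (A x) (H x) : ℝ)) (mu Ω) := by
    intro H hH
    have h1 : Integrable (fun x => ‖A x‖ * ‖H x‖) (mu Ω) := by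
      have : ENNReal.HolderConjugate (ENNReal.ofReal q) (ENNReal.ofReal p) := by
        exact hq.symm.ennrealOfReal
      exact hA.norm.integrable_mul hH.norm
    refine h1.mono' (hA.1.inner hH.1) (Eventually.of_forall fun x => ?_)
    exact norm_inner_le_norm _ _
  refine ⟨hint, ?_⟩
  refine ⟨LinearMap.mkContinuous
    { toFun := fun H => ∫ x in Ω, (inner ℝ (A x) (H x) : ℝ)
      map_add' := ?_
      map_smul' := ?_ } ((∫ x in Ω, ‖A x‖ ^ q) ^ (1 / q)) ?_, fun H => rfl⟩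
  · intro H K
    rw [← integral_add (hint _ (Lp.memLp H)) (hint _ (Lp.memLp K))]
    refine integral_congr_ae ?_
    filter_upwards [Lp.coeFn_add H K] with x hx
    rw [hx, Pi.add_apply, inner_add_right]
  · intro c H
    simp only [RingHom.id_apply, smul_eq_mul]
    rw [← integral_const_mul]
    refine integral_congr_ae ?_
    filter_upwards [Lp.coeFn_smul c H] with x hx
    rw [hx, Pi.smul_apply, inner_smul_right]
  · intro H
    simp only [LinearMap.coe_mk, AddHom.coe_mk]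
    have hp : 1 < p := hq.lt
    have h0 : 0 < p := by linarith
    have h1 := integral_mul_norm_le_Lp_mul_Lq (μ := mu Ω) hq.symm hA.norm (Lp.memLp H).norm
    have h2 : ‖H‖ = (∫ x in Ω, ‖H x‖ ^ p) ^ (1 / p) := by
      rw [← norm_Lp_rpow hp, ← Real.rpow_mul (norm_nonneg _), mul_one_div_cancel h0.ne',
        Real.rpow_one]
    simp only [norm_norm] at h1
    rw [← h2] at h1
    refine le_trans ?_ h1
    refine (norm_integral_le_integral_norm _).trans ?_
    refine integral_mono_of_nonneg (Eventually.of_forall fun x => norm_nonneg _) ?_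
      (Eventually.of_forall fun x => norm_inner_le_norm _ _)
    have : ENNReal.HolderConjugate (ENNReal.ofReal q) (ENNReal.ofReal p) :=
      hq.symm.ennrealOfReal
    exact hA.norm.integrable_mul (Lp.memLp H).norm

end Pool.Agent.Q186.PL
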