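import Pool.Agent.Q186.PL.Min
import Pool.Agent.Q186.PL.Defs

/-!
# Test functions and the Poincaré inequality
-/

set_option autoImplicit false

open MeasureTheory Filter Topology Set
open scoped ENNReal NNReal ContDiff

namespace Pool.Agent.Q186.PL

variable {E : Type*} [NormedAddCommGroup E] [InnerProductSpace ℝ E] [FiniteDimensional ℝ E]

theorem Test.zero (Ω : Set E) : Test Ω (fun _ => (0 : ℝ)) :=
  ⟨contDiff_const, HasCompactSupport.zero, by
    rw [show (fun _ : E => (0 : ℝ)) = 0 from rfl, tsupport_zero]; exact empty_subset _⟩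

theorem Test.add {Ω : Set E} {φ ψ : E → ℝ} (hφ : Test Ω φ) (hψ : Test Ω ψ) :
    Test Ω (fun x => φ x + ψ x) :=
  ⟨hφ.smooth.add hψ.smooth, hφ.comp.add hψ.comp,
    (tsupport_add φ ψ).trans (union_subset hφ.supp hψ.supp)⟩

theorem Test.smul {Ω : Set E} {φ : E → ℝ} (hφ : Test Ω φ) (c : ℝ) :
    Test Ω (fun x => c * φ x) :=
  ⟨contDiff_const.mul hφ.smooth, hφ.comp.mul_left,
    (tsupport_mul_subset_right (f := fun _ => c) (g := φ)).trans hφ.supp⟩

theorem Test.differentiableAt {Ω : Set E} {φ : E → ℝ} (hφ : Test Ω φ) (x : E) :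
    DifferentiableAt ℝ φ x := (hφ.smooth.differentiable (by simp)) x

theorem gradient_add' {φ ψ : E → ℝ} {x : E} (hφ : DifferentiableAt ℝ φ x)
    (hψ : DifferentiableAt ℝ ψ x) :
    gradient (fun x => φ x + ψ x) x = gradient φ x + gradient ψ x := by
  unfold gradient
  rw [← map_add]
  congr 1
  exact fderiv_add hφ hψ

theorem gradient_smul' {φ : E → ℝ} {x : E} (c : ℝ) (hφ : DifferentiableAt ℝ φ x) :
    gradient (fun x => c * φ x) x = c • gradient φ x := by
  unfold gradient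
  rw [← map_smul]
  congr 1
  exact fderiv_const_mul hφ c

theorem Test.continuous_grad {Ω : Set E} {φ : E → ℝ} (hφ : Test Ω φ) :
    Continuous (gradient φ) := by
  unfold gradient
  exact (InnerProductSpace.toDual ℝ E).symm.continuous.comp
    (hφ.smooth.continuous_fderiv (by simp))

theorem Test.comp_grad {Ω : Set E} {φ : E → ℝ} (hφ : Test Ω φ) :
    HasCompactSupport (gradient φ) := by
  have h := hφ.comp.fderiv (𝕜 := ℝ)
  exact h.comp_left (g := fun L => (InnerProductSpace.toDual ℝ E).symm L) (by simp)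

theorem Test.eq_zero {Ω : Set E} {φ : E → ℝ} (hφ : Test Ω φ) {x : E} (hx : x ∉ Ω) : φ x = 0 :=
  image_eq_zero_of_notMem_tsupport fun h => hx (hφ.supp h)

theorem Test.grad_eq_zero {Ω : Set E} {φ : E → ℝ} (hφ : Test Ω φ) {x : E} (hx : x ∉ Ω) :
    gradient φ x = 0 := by
  unfold gradient
  have : fderiv ℝ φ x = 0 := by
    by_contra hne
    exact hx (hφ.supp (support_fderiv_subset ℝ hne))
  rw [this, map_zero]

theorem inner_grad {φ : E → ℝ} {x : E} (v : E) :
    inner ℝ (gradient φ x) v = fderiv ℝ φ x v := by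
  unfold gradient
  rw [← InnerProductSpace.toDual_apply_apply, LinearIsometryEquiv.apply_symm_apply]

theorem point_bound {Ω : Set E} {R : ℝ} (hR : 0 < R) (hΩ : Ω ⊆ Metric.ball 0 R) {e : E}
    (he : ‖e‖ = 1) {φ : E → ℝ} (hφ : Test Ω φ) (x : E) :
    ‖φ x‖ₑ ≤ ∫⁻ t in Ioc (0 : ℝ) (2 * R), ‖gradient φ (x + t • e)‖ₑ := by
  by_cases hx : x ∈ Ω
  · have h1 : φ (x + (2 * R) • e) = 0 := by
      apply hφ.eq_zero
      intro h
      have a1 := hΩ h
      have a2 := hΩ hx
      rw [Metric.mem_ball, dist_zero_right] at a1 a2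
      have a3 : ‖(2 * R) • e‖ = 2 * R := by
        rw [norm_smul, he, mul_one, Real.norm_eq_abs, abs_of_pos (by positivity)]
      have a4 : ‖(2 * R) • e‖ ≤ ‖x + (2 * R) • e‖ + ‖x‖ := by
        have := norm_sub_le (x + (2 * R) • e) x
        rwa [add_sub_cancel_left] at this
      linarith
    have hder : ∀ t : ℝ, HasDerivAt (fun t : ℝ => φ (x + t • e))
        (inner ℝ (gradient φ (x + t • e)) e) t := by
      intro t
      rw [inner_grad]
      have h2 : HasDerivAt (fun t : ℝ => x + t • e) e t := by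
        simpa using ((hasDerivAt_id t).smul_const e).const_add x
      exact (hφ.differentiableAt _).hasFDerivAt.comp_hasDerivAt t h2
    have hcont : Continuous fun t : ℝ => (inner ℝ (gradient φ (x + t • e)) e : ℝ) := by
      have := hφ.continuous_grad
      fun_prop
    have h3 := intervalIntegral.integral_eq_sub_of_hasDerivAt (a := (0 : ℝ)) (b := 2 * R)
      (fun t _ => hder t) (hcont.intervalIntegrable _ _)
    rw [h1, zero_smul, add_zero, zero_sub] at h3
    have h4 : ‖φ x‖ₑ = ‖∫ t in Ioc (0 : ℝ) (2 * R), (inner ℝ (gradient φ (x + t • e)) e : ℝ)‖ₑ := by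
      rw [← intervalIntegral.integral_of_le (by positivity), h3, enorm_neg]
    rw [h4]
    refine (enorm_integral_le_lintegral_enorm _).trans (lintegral_mono fun t => ?_)
    rw [enorm_le_iff_norm_le]
    calc ‖(inner ℝ (gradient φ (x + t • e)) e : ℝ)‖ ≤ ‖gradient φ (x + t • e)‖ * ‖e‖ :=
          norm_inner_le_norm _ _
      _ = ‖gradient φ (x + t • e)‖ := by rw [he, mul_one]
  · rw [hφ.eq_zero hx]; simp

theorem jensen {p L : ℝ} (hp : 1 < p) (hL : 0 < L) {f : ℝ → ℝ≥0∞} (hf : Measurable f) :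
    (∫⁻ t in Ioc (0 : ℝ) L, f t) ^ p ≤
      ENNReal.ofReal L ^ (p - 1) * ∫⁻ t in Ioc (0 : ℝ) L, f t ^ p := by
  have h0 : 0 < p := by linarith
  obtain ⟨q, hq⟩ : ∃ q, p.HolderConjugate q := ⟨_, Real.HolderConjugate.conjExponent hp⟩
  have h := ENNReal.lintegral_mul_le_Lp_mul_Lq (volume.restrict (Ioc (0 : ℝ) L)) hq
    (f := f) (g := fun _ => 1) hf.aemeasurable aemeasurable_const
  simp only [Pi.mul_apply, mul_one, ENNReal.one_rpow, lintegral_const, Measure.restrict_apply,
    MeasurableSet.univ, univ_inter, Real.volume_Ioc, sub_zero, one_mul] at h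
  calc (∫⁻ t in Ioc (0 : ℝ) L, f t) ^ p
      ≤ ((∫⁻ t in Ioc (0 : ℝ) L, f t ^ p) ^ (1 / p) * ENNReal.ofReal L ^ (1 / q)) ^ p :=
        ENNReal.rpow_le_rpow h h0.le
    _ = ENNReal.ofReal L ^ (p - 1) * ∫⁻ t in Ioc (0 : ℝ) L, f t ^ p := by
        rw [ENNReal.mul_rpow_of_nonneg _ _ h0.le, ← ENNReal.rpow_mul, ← ENNReal.rpow_mul,
          one_div_mul_cancel h0.ne', ENNReal.rpow_one, mul_comm]
        congr 2
        have := hq.sub_one_pos
        have h1 : q⁻¹ = 1 - p⁻¹ := hq.one_sub_inv.symm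
        rw [one_div, h1]
        field_simp

variable [MeasurableSpace E] [BorelSpace E]

theorem poincare_lintegral {Ω : Set E} {R : ℝ} (hR : 0 < R) (hΩ : Ω ⊆ Metric.ball 0 R)
    [Nontrivial E] {p : ℝ} (hp : 1 < p) {φ : E → ℝ} (hφ : Test Ω φ) :
    ∫⁻ x, ‖φ x‖ₑ ^ p ≤ ENNReal.ofReal (2 * R) ^ p * ∫⁻ x, ‖gradient φ x‖ₑ ^ p := by
  have h0 : 0 < p := by linarith
  obtain ⟨e, he⟩ := exists_norm_eq E (zero_le_one (α := ℝ))
  have hm : Measurable fun z : E × ℝ => ‖gradient φ (z.1 + z.2 • e)‖ₑ ^ p := by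
    have hc := hφ.continuous_grad
    have : Continuous fun z : E × ℝ => gradient φ (z.1 + z.2 • e) := by fun_prop
    exact (this.enorm.measurable).pow_const p
  calc ∫⁻ x, ‖φ x‖ₑ ^ p
      ≤ ∫⁻ x, ENNReal.ofReal (2 * R) ^ (p - 1) *
          ∫⁻ t in Ioc (0 : ℝ) (2 * R), ‖gradient φ (x + t • e)‖ₑ ^ p := by
        refine lintegral_mono fun x => ?_
        refine (ENNReal.rpow_le_rpow (point_bound hR hΩ he hφ x) h0.le).trans
          (jensen hp (by positivity) ?_)
        have hc := hφ.continuous_grad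
        have : Continuous fun t : ℝ => gradient φ (x + t • e) := by fun_prop
        exact this.enorm.measurable
    _ = ENNReal.ofReal (2 * R) ^ (p - 1) *
          ∫⁻ x, ∫⁻ t in Ioc (0 : ℝ) (2 * R), ‖gradient φ (x + t • e)‖ₑ ^ p := by
        rw [lintegral_const_mul]
        exact hm.lintegral_prod_right'
    _ = ENNReal.ofReal (2 * R) ^ (p - 1) *
          ∫⁻ t in Ioc (0 : ℝ) (2 * R), ∫⁻ x, ‖gradient φ (x + t • e)‖ₑ ^ p := by
        rw [lintegral_lintegral_swap]
        exact hm.aemeasurable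
    _ = ENNReal.ofReal (2 * R) ^ (p - 1) *
          ∫⁻ t in Ioc (0 : ℝ) (2 * R), ∫⁻ x, ‖gradient φ x‖ₑ ^ p := by
        congr 1
        refine lintegral_congr fun t => ?_
        exact lintegral_add_right_eq_self (μ := (volume : Measure E))
          (fun x => ‖gradient φ x‖ₑ ^ p) (t • e)
    _ = ENNReal.ofReal (2 * R) ^ p * ∫⁻ x, ‖gradient φ x‖ₑ ^ p := by
        rw [lintegral_const, Measure.restrict_apply MeasurableSet.univ, univ_inter,
          Real.volume_Ioc, sub_zero, mul_comm (∫⁻ x, ‖gradient φ x‖ₑ ^ p), ← mul_assoc]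
        congr 1
        nth_rw 2 [← ENNReal.rpow_one (ENNReal.ofReal (2 * R))]
        rw [← ENNReal.rpow_add _ _ (by simpa using hR) ENNReal.ofReal_ne_top]
        congr 1; ring

end Pool.Agent.Q186.PL
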