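import Mathlib

/-!
# Uniform convexity of `L^p` with values in a finite dimensional inner product space
-/

set_option autoImplicit false

open MeasureTheory Filter Topology Set
open scoped ENNReal NNReal

namespace Pool.Agent.Q186.PL

variable {E : Type*} [NormedAddCommGroup E] [InnerProductSpace ℝ E]

/-- the convexity defect -/
noncomputable def df (p : ℝ) (a b : E) : ℝ :=
  (‖a‖ ^ p + ‖b‖ ^ p) / 2 - ‖(1 / 2 : ℝ) • (a + b)‖ ^ p

theorem df_pos {p : ℝ} (hp : 1 < p) {a b : E} (hab : a ≠ b) : 0 < df p a b := by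
  unfold df
  have h0 : 0 < p := by linarith
  have hle : ‖(1 / 2 : ℝ) • (a + b)‖ ≤ (‖a‖ + ‖b‖) / 2 := by
    rw [norm_smul, Real.norm_eq_abs, abs_of_pos (by norm_num : (0 : ℝ) < 1 / 2)]
    have := norm_add_le a b
    linarith
  by_cases hn : ‖a‖ = ‖b‖
  · have h1 : ‖(1 / 2 : ℝ) • (a + b)‖ < ‖a‖ := (norm_midpoint_lt_iff hn).2 hab
    have h2 : ‖(1 / 2 : ℝ) • (a + b)‖ ^ p < ‖a‖ ^ p :=
      Real.rpow_lt_rpow (norm_nonneg _) h1 h0
    rw [← hn]
    linarith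
  · have hc := (strictConvexOn_rpow hp).2 (norm_nonneg a) (norm_nonneg b) hn
      (by norm_num : (0 : ℝ) < 1 / 2) (by norm_num : (0 : ℝ) < 1 / 2) (by norm_num)
    simp only [smul_eq_mul] at hc
    have h2 : ‖(1 / 2 : ℝ) • (a + b)‖ ^ p ≤ (1 / 2 * ‖a‖ + 1 / 2 * ‖b‖) ^ p :=
      Real.rpow_le_rpow (norm_nonneg _) (by linarith) h0.le
    linarith

theorem df_nonneg {p : ℝ} (hp : 1 < p) (a b : E) : 0 ≤ df p a b := by
  by_cases hab : a = b
  · subst hab
    unfold df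
    have : (1 / 2 : ℝ) • (a + a) = a := by
      rw [← two_smul ℝ a, smul_smul]; norm_num
    rw [this]; linarith
  · exact (df_pos hp hab).le

theorem df_smul {p : ℝ} {t : ℝ} (ht : 0 ≤ t) (a b : E) :
    df p (t • a) (t • b) = t ^ p * df p a b := by
  unfold df
  have h : (1 / 2 : ℝ) • (t • a + t • b) = t • ((1 / 2 : ℝ) • (a + b)) := by
    rw [← smul_add, smul_comm]
  rw [h, norm_smul, norm_smul, norm_smul, Real.norm_eq_abs, abs_of_nonneg ht,
    Real.mul_rpow ht (norm_nonneg _), Real.mul_rpow ht (norm_nonneg _),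
    Real.mul_rpow ht (norm_nonneg _)]
  ring

theorem continuous_df {p : ℝ} (hp : 0 < p) : Continuous fun z : E × E => df p z.1 z.2 := by
  unfold df
  have h1 : Continuous fun x : ℝ => x ^ p := Real.continuous_rpow_const hp.le
  fun_prop (disch := exact hp.le)

/-- the pointwise inequality behind uniform convexity -/
theorem uc_point [FiniteDimensional ℝ E] {p : ℝ} (hp : 1 < p) {δ : ℝ} (hδ : 0 < δ) :
    ∃ K : ℝ, 0 ≤ K ∧ ∀ a b : E, ‖a - b‖ ^ p ≤ δ * (‖a‖ ^ p + ‖b‖ ^ p) + K * df p a b := by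
  have h0 : 0 < p := by linarith
  have : ProperSpace E := FiniteDimensional.proper_real E
  set δ' : ℝ := δ ^ p⁻¹ with hδ'
  have hδ'0 : 0 < δ' := Real.rpow_pos_of_pos hδ _
  have hδ'p : δ' ^ p = δ := by
    rw [hδ', ← Real.rpow_mul hδ.le, inv_mul_cancel₀ h0.ne', Real.rpow_one]
  set S : Set (E × E) := Metric.sphere (0 : E × E) 1 ∩ {z | δ' ≤ ‖z.1 - z.2‖} with hS
  have hSc : IsCompact S := by
    refine (isCompact_sphere _ _).inter_right ?_
    exact isClosed_le continuous_const (by fun_prop)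
  have hdf := continuous_df (E := E) h0
  have key : ∃ η : ℝ, 0 < η ∧ ∀ z ∈ S, η ≤ df p z.1 z.2 := by
    by_cases hne : S.Nonempty
    · obtain ⟨z0, hz0, hmin⟩ := hSc.exists_isMinOn hne hdf.continuousOn
      refine ⟨df p z0.1 z0.2, df_pos hp ?_, fun z hz => hmin hz⟩
      intro he
      have := hz0.2
      simp only [Set.mem_ofPred_eq, he, sub_self, norm_zero] at this
      linarith
    · exact ⟨1, one_pos, fun z hz => (hne ⟨z, hz⟩).elim⟩
  obtain ⟨η, hη, hmin⟩ := key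
  refine ⟨2 ^ p / η, by positivity, fun a b => ?_⟩
  have hdn := df_nonneg hp a b
  set M : ℝ := ‖(a, b)‖ with hM
  have haM : ‖a‖ ≤ M := by rw [hM, Prod.norm_def]; exact le_max_left _ _
  have hbM : ‖b‖ ≤ M := by rw [hM, Prod.norm_def]; exact le_max_right _ _
  have hM0 : 0 ≤ M := norm_nonneg _
  have hMp : M ^ p ≤ ‖a‖ ^ p + ‖b‖ ^ p := by
    rcases le_total ‖a‖ ‖b‖ with h | h
    · have : M = ‖b‖ := by rw [hM, Prod.norm_def]; exact max_eq_right h
      rw [this]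
      have := Real.rpow_nonneg (norm_nonneg a) p
      linarith
    · have : M = ‖a‖ := by rw [hM, Prod.norm_def]; exact max_eq_left h
      rw [this]
      have := Real.rpow_nonneg (norm_nonneg b) p
      linarith
  rcases hM0.eq_or_lt with hz | hMpos
  · have ha : a = 0 := norm_le_zero_iff.1 (by linarith)
    have hb : b = 0 := norm_le_zero_iff.1 (by linarith)
    subst ha; subst hb
    simp only [sub_self, norm_zero, Real.zero_rpow h0.ne']
    have : 0 ≤ 2 ^ p / η * df p (0 : E) 0 := by positivity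
    linarith
  · by_cases hc : δ' * M ≤ ‖a - b‖
    · have hzS : (M⁻¹ • (a, b) : E × E) ∈ S := by
        refine ⟨?_, ?_⟩
        · rw [mem_sphere_zero_iff_norm, norm_smul, Real.norm_eq_abs, abs_of_pos (inv_pos.2 hMpos),
            ← hM, inv_mul_cancel₀ hMpos.ne']
        · simp only [Set.mem_ofPred_eq, Prod.smul_mk]
          rw [← smul_sub, norm_smul, Real.norm_eq_abs, abs_of_pos (inv_pos.2 hMpos)]
          rw [← div_eq_inv_mul, le_div_iff₀ hMpos]
          exact hc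
      have h1 := hmin _ hzS
      simp only [Prod.smul_mk] at h1
      rw [df_smul (inv_pos.2 hMpos).le, Real.inv_rpow hM0] at h1
      have hMpp : 0 < M ^ p := Real.rpow_pos_of_pos hMpos _
      have h2 : η * M ^ p ≤ df p a b := by
        rw [← div_eq_inv_mul, le_div_iff₀ hMpp] at h1
        exact h1
      have h3 : ‖a - b‖ ^ p ≤ (2 * M) ^ p := by
        refine Real.rpow_le_rpow (norm_nonneg _) ?_ h0.le
        have := norm_sub_le a b
        linarith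
      rw [Real.mul_rpow (by norm_num) hM0] at h3
      have h4 : 2 ^ p * M ^ p ≤ 2 ^ p / η * df p a b := by
        rw [div_mul_eq_mul_div, le_div_iff₀ hη]
        have : (2 : ℝ) ^ p * (η * M ^ p) ≤ 2 ^ p * df p a b :=
          mul_le_mul_of_nonneg_left h2 (by positivity)
        linarith
      have h5 : 0 ≤ δ * (‖a‖ ^ p + ‖b‖ ^ p) := by positivity
      linarith
    · push Not at hc
      have h1 : ‖a - b‖ ^ p ≤ (δ' * M) ^ p := Real.rpow_le_rpow (norm_nonneg _) hc.le h0.le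
      rw [Real.mul_rpow hδ'0.le hM0, hδ'p] at h1
      have h2 : δ * M ^ p ≤ δ * (‖a‖ ^ p + ‖b‖ ^ p) := mul_le_mul_of_nonneg_left hMp hδ.le
      have h3 : 0 ≤ 2 ^ p / η * df p a b := by positivity
      linarith

variable {X : Type*} [MeasurableSpace X] {μ : Measure X}

theorem integrable_norm_rpow {p : ℝ} (hp : 1 < p) {f : X → E}
    (hf : MemLp f (ENNReal.ofReal p) μ) : Integrable (fun x => ‖f x‖ ^ p) μ := by
  have := hf.integrable_norm_rpow (by simpa using by linarith) ENNReal.ofReal_ne_top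
  simpa [ENNReal.toReal_ofReal (by linarith : (0 : ℝ) ≤ p)] using this

theorem norm_Lp_rpow {p : ℝ} (hp : 1 < p) (f : Lp E (ENNReal.ofReal p) μ) :
    ‖f‖ ^ p = ∫ x, ‖f x‖ ^ p ∂μ := by
  have h0 : 0 < p := by linarith
  have hf := Lp.memLp f
  have h1 : ENNReal.ofReal p ≠ 0 := by simpa using h0
  rw [Lp.norm_def, hf.eLpNorm_eq_integral_rpow_norm h1 ENNReal.ofReal_ne_top,
    ENNReal.toReal_ofReal h0.le, ENNReal.toReal_ofReal (by positivity),
    ← Real.rpow_mul (by positivity), inv_mul_cancel₀ h0.ne', Real.rpow_one]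

/-- uniform convexity of `L^p(μ; E)` in the form of one inequality -/
theorem uc_Lp [FiniteDimensional ℝ E] {p : ℝ} (hp : 1 < p) {δ : ℝ} (hδ : 0 < δ) :
    ∃ K : ℝ, 0 ≤ K ∧ ∀ f g : Lp E (ENNReal.ofReal p) μ, ‖f - g‖ ^ p ≤
      δ * (‖f‖ ^ p + ‖g‖ ^ p) + K * ((‖f‖ ^ p + ‖g‖ ^ p) / 2 - ‖(1 / 2 : ℝ) • (f + g)‖ ^ p) := by
  obtain ⟨K, hK, h⟩ := uc_point (E := E) hp hδ
  refine ⟨K, hK, fun f g => ?_⟩
  rw [norm_Lp_rpow hp, norm_Lp_rpow hp, norm_Lp_rpow hp, norm_Lp_rpow hp]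
  have If := integrable_norm_rpow hp (Lp.memLp f)
  have Ig := integrable_norm_rpow hp (Lp.memLp g)
  have Is := integrable_norm_rpow hp (Lp.memLp (f - g))
  have Im := integrable_norm_rpow hp (Lp.memLp ((1 / 2 : ℝ) • (f + g)))
  have Ifg : Integrable (fun x => ‖f x‖ ^ p + ‖g x‖ ^ p) μ := If.add Ig
  have Ih : Integrable (fun x => (‖f x‖ ^ p + ‖g x‖ ^ p) / 2
      - ‖((1 / 2 : ℝ) • (f + g) : Lp E (ENNReal.ofReal p) μ) x‖ ^ p) μ := (Ifg.div_const 2).sub Im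
  have e1 : ∫ x, (‖f x‖ ^ p + ‖g x‖ ^ p) ∂μ = ∫ x, ‖f x‖ ^ p ∂μ + ∫ x, ‖g x‖ ^ p ∂μ :=
    integral_add If Ig
  have e2 : ∫ x, ((‖f x‖ ^ p + ‖g x‖ ^ p) / 2
      - ‖((1 / 2 : ℝ) • (f + g) : Lp E (ENNReal.ofReal p) μ) x‖ ^ p) ∂μ
      = (∫ x, ‖f x‖ ^ p ∂μ + ∫ x, ‖g x‖ ^ p ∂μ) / 2
      - ∫ x, ‖((1 / 2 : ℝ) • (f + g) : Lp E (ENNReal.ofReal p) μ) x‖ ^ p ∂μ := by
    rw [integral_sub (Ifg.div_const 2) Im, integral_div, e1]
  have e3 : δ * (∫ x, ‖f x‖ ^ p ∂μ + ∫ x, ‖g x‖ ^ p ∂μ)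
      + K * ((∫ x, ‖f x‖ ^ p ∂μ + ∫ x, ‖g x‖ ^ p ∂μ) / 2
        - ∫ x, ‖((1 / 2 : ℝ) • (f + g) : Lp E (ENNReal.ofReal p) μ) x‖ ^ p ∂μ)
      = ∫ x, (δ * (‖f x‖ ^ p + ‖g x‖ ^ p) + K * ((‖f x‖ ^ p + ‖g x‖ ^ p) / 2
        - ‖((1 / 2 : ℝ) • (f + g) : Lp E (ENNReal.ofReal p) μ) x‖ ^ p)) ∂μ := by
    rw [integral_add (Ifg.const_mul δ) (Ih.const_mul K), integral_const_mul, integral_const_mul,
      e1, e2]
  rw [e3]
  refine integral_mono_ae Is ((Ifg.const_mul δ).add (Ih.const_mul K)) ?_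
  filter_upwards [Lp.coeFn_sub f g, Lp.coeFn_smul (1 / 2 : ℝ) (f + g), Lp.coeFn_add f g]
    with x h1 h2 h3
  rw [h1, h2]
  simp only [Pi.sub_apply, Pi.smul_apply, h3, Pi.add_apply]
  exact h (f x) (g x)

end Pool.Agent.Q186.PL
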